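import Pool.Agent.H57.SO.Targets

/-!
# Several orbits of vertices: basic facts, systems of points, realization, the fibres
-/

set_option autoImplicit false
set_option linter.unusedVariables false

namespace Pool.Agent.H57.SO

open Pool.Agent.H68.BP Pool.Agent.H58.SF Pool.Agent.H53.GC Pool.Agent.H53.NR
open Pool.Agent.H57.EQ (Cx Tour)
open Function

section basic

variable {V S X : Type} {P : Pal S X} {c : V → V → S ⊕ X}

theorem Col.diag (hc : Col P c) (x : V) : c x x = Sum.inl (vt P c x) := by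
  obtain ⟨s, hs⟩ := (hc.eq_iff x x).2 rfl
  unfold vt
  rw [hs]
  rfl

theorem Col.vt_of (hc : Col P c) {x : V} {s : S} (h : c x x = Sum.inl s) : vt P c x = s := by
  unfold vt
  rw [h]
  rfl

theorem Col.of_inl (hc : Col P c) {x y : V} {s : S} (h : c x y = Sum.inl s) : x = y :=
  (hc.eq_iff x y).1 ⟨s, h⟩

theorem Col.ne (hc : Col P c) {x y : V} (h : x ≠ y) : ∃ t, c x y = Sum.inr t := by
  cases hcc : c x y with
  | inl s => exact absurd (hc.of_inl hcc) h
  | inr t => exact ⟨t, rfl⟩

theorem Col.ne_of (hc : Col P c) {x y : V} {t : X} (h : c x y = Sum.inr t) : x ≠ y := by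
  rintro rfl
  rw [hc.diag] at h
  exact absurd h (by simp)

theorem Col.vt_left (hc : Col P c) {x y : V} {t : X} (h : c x y = Sum.inr t) :
    vt P c x = P.ls t := hc.vt_of (hc.left x y t h)

theorem Col.vt_right (hc : Col P c) {x y : V} {t : X} (h : c x y = Sum.inr t) :
    vt P c y = P.rs t := hc.vt_of (hc.right x y t h)

theorem Col.rv_rv (hc : Col P c) (t : X) : P.rv (P.rv t) = t := by
  obtain ⟨x, y, h⟩ := hc.surX t
  have h1 := hc.swap x y t h
  have h2 := hc.swap y x _ h1
  rw [h] at h2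
  exact (Sum.inr_injective h2).symm

theorem Col.ls_rv (hc : Col P c) (t : X) : P.ls (P.rv t) = P.rs t := by
  obtain ⟨x, y, h⟩ := hc.surX t
  rw [← hc.vt_left (hc.swap x y t h), ← hc.vt_right h]

theorem Col.rs_rv (hc : Col P c) (t : X) : P.rs (P.rv t) = P.ls t := by
  obtain ⟨x, y, h⟩ := hc.surX t
  rw [← hc.vt_right (hc.swap x y t h), ← hc.vt_left h]

/-- types of pairs in the other order -/
theorem Col.swap_eq (hc : Col P c) {x y x' y' : V} (h : c x y = c x' y') : c y x = c y' x' := by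
  cases h1 : c x y with
  | inl s =>
    rw [h1] at h
    have e1 := hc.of_inl h1
    have e2 := hc.of_inl h.symm
    subst e1
    subst e2
    rw [h1, h]
  | inr t =>
    rw [h1] at h
    rw [hc.swap x y t h1, hc.swap x' y' t h.symm]

theorem Col.diag_eq (hc : Col P c) {x y x' y' : V} (h : c x y = c x' y') : c x x = c x' x' := by
  cases h1 : c x y with
  | inl s =>
    rw [h1] at h
    have e1 := hc.of_inl h1
    have e2 := hc.of_inl h.symm
    subst e1
    subst e2
    rw [h1, h]
  | inr t =>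
    rw [h1] at h
    rw [hc.left x y t h1, hc.left x' y' t h.symm]

theorem Col.vt_eq (hc : Col P c) {x y x' y' : V} (h : c x y = c x' y') :
    vt P c x = vt P c x' := by
  unfold vt
  rw [hc.diag_eq h]

theorem cD_inl {x y : V} {s : S} (h : c x y = Sum.inl s) : cD P c x y = P.fr s s := by
  unfold cD
  rw [h]
  rfl

theorem cD_inr {x y : V} {t : X} (h : c x y = Sum.inr t) : cD P c x y = t := by
  unfold cD
  rw [h]
  rfl

theorem Col.cD_self (hc : Col P c) (x : V) : cD P c x x = P.fr (vt P c x) (vt P c x) :=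
  cD_inl (hc.diag x)

theorem Col.c_cD (hc : Col P c) {x y : V} (h : x ≠ y) : c x y = Sum.inr (cD P c x y) := by
  obtain ⟨t, ht⟩ := hc.ne h
  rw [ht, cD_inr ht]

theorem Col.cD_swap (hc : Col P c) (x y : V) : cD P c y x = P.rv (cD P c x y) := by
  by_cases h : x = y
  · subst h
    rw [hc.cD_self, P.rv_fr]
  · obtain ⟨t, ht⟩ := hc.ne h
    rw [cD_inr ht, cD_inr (hc.swap x y t ht)]

theorem Col.ls_cD (hc : Col P c) (x y : V) : P.ls (cD P c x y) = vt P c x := by
  by_cases h : x = y
  · subst h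
    rw [hc.cD_self, P.ls_fr]
  · obtain ⟨t, ht⟩ := hc.ne h
    rw [cD_inr ht, hc.vt_left ht]

theorem Col.rs_cD (hc : Col P c) (x y : V) : P.rs (cD P c x y) = vt P c y := by
  by_cases h : x = y
  · subst h
    rw [hc.cD_self, P.rs_fr]
  · obtain ⟨t, ht⟩ := hc.ne h
    rw [cD_inr ht, hc.vt_right ht]

theorem relP_inv {V Z : Type} {σ : Sig} {𝔸 : Str σ V} {M : ℕ} {c : V → V → Z}
    (ht : TyInv 𝔸 c) (s : Option (Fin σ.m)) (x y : Fin (arP σ M s) → V) (hx : relP 𝔸 M s x)
    (hxy : ∀ a b, c (y a) (y b) = c (x a) (x b)) : relP 𝔸 M s y := by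
  cases s with
  | none => trivial
  | some l => exact ht l x y hx hxy

theorem relP_cx {V I W : Type} {σ : Sig} {𝔸 : Str σ V} {M : ℕ} {G : I → W → V} {ψ : W → V}
    (h : Cx 𝔸 G ψ) (s : Option (Fin σ.m)) (z : Fin (arP σ M s) → W)
    (hx : ∀ i, relP 𝔸 M s (fun a => G i (z a))) : relP 𝔸 M s (fun a => ψ (z a)) := by
  cases s with
  | none => trivial
  | some l => exact h l z hx

end basic

theorem pf_SYS : T_SYS := by
  classical
  intro σ V S X _ P 𝔸 M c hs W _ _ u r hr
  have hc := hs.col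
  have hW : Fintype W := Fintype.ofFinite W
  let e0 : Fin (Fintype.card W) ≃o W := Fintype.orderIsoFinOfCardEq W rfl
  let d : Fin (Fintype.card W) → Fin (Fintype.card W) → X := fun i j =>
    if r (e0 i) (e0 j) ∧ u (e0 i) ≠ u (e0 j) then cD P c (u (e0 i)) (u (e0 j))
      else P.fr (vt P c (u (e0 i))) (vt P c (u (e0 j)))
  have hd : ∀ i j, r (e0 i) (e0 j) → u (e0 i) ≠ u (e0 j) →
      c (u (e0 i)) (u (e0 j)) = Sum.inr (d i j) := by
    intro i j h1 h2
    have h3 : d i j = cD P c (u (e0 i)) (u (e0 j)) := if_pos ⟨h1, h2⟩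
    rw [h3]
    exact hc.c_cD h2
  have hd' : ∀ i j, ¬ (r (e0 i) (e0 j) ∧ u (e0 i) ≠ u (e0 j)) →
      d i j = P.fr (vt P c (u (e0 i))) (vt P c (u (e0 j))) := fun i j h => if_neg h
  obtain ⟨f, hf, hf1, hf2⟩ := hs.uni _ (fun i => vt P c (u (e0 i))) d (by
    intro m s _ _ h
    refine ⟨fun i => u (e0 (s i)), fun i => hc.diag _, ?_⟩
    intro i j hij
    have h1 : r (e0 (s i)) (e0 (s j)) ∧ u (e0 (s i)) ≠ u (e0 (s j)) := by
      by_contra h2
      exact h i j hij (hd' _ _ h2)
    exact hd _ _ h1.1 h1.2)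
  have key : ∀ n n', n < n' →
      (r n n' → u n ≠ u n' → c (f (e0.symm n)) (f (e0.symm n')) = c (u n) (u n')) ∧
        (¬ (r n n' ∧ u n ≠ u n') → c (f (e0.symm n)) (f (e0.symm n')) =
          Sum.inr (P.fr (vt P c (u n)) (vt P c (u n')))) := by
    intro n n' hn
    have h1 := hf2 (e0.symm n) (e0.symm n') (e0.symm.strictMono hn)
    refine ⟨?_, ?_⟩
    · intro h2 h3
      have h4 := hd (e0.symm n) (e0.symm n')
      rw [OrderIso.apply_symm_apply, OrderIso.apply_symm_apply] at h4
      rw [h1, h4 h2 h3]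
    · intro h2
      have h4 := hd' (e0.symm n) (e0.symm n')
      rw [OrderIso.apply_symm_apply, OrderIso.apply_symm_apply] at h4
      rw [h1, h4 h2]
  refine ⟨fun w => f (e0.symm w), hf.comp e0.symm.strictMono, ?_, ?_⟩
  · intro n
    have h1 := hf1 (e0.symm n)
    rw [OrderIso.apply_symm_apply] at h1
    rw [hc.diag (u n)]
    exact h1
  intro n n' hne
  rcases lt_or_gt_of_ne hne with h | h
  · exact key n n' h
  · have h1 := key n' n h
    refine ⟨?_, ?_⟩
    · intro h3 h4
      exact hc.swap_eq (h1.1 (hr _ _ h3) (Ne.symm h4))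
    · intro h3
      have h5 := h1.2 (fun h5 => h3 ⟨hr _ _ h5.1, Ne.symm h5.2⟩)
      have h6 := hc.swap _ _ _ h5
      rw [P.rv_fr] at h6
      exact h6

/-- realization, with any order -/
theorem pf_REA : T_REA := by
  classical
  intro σ V S X _ P 𝔸 M c hs W _ q hq rk hrk
  have h3 := hs.three
  have hc := hs.col
  -- pairs
  have hpair : ∀ u w z : W, ∃ a b d : V, c a b = q u w ∧ c b a = q w u ∧ c a d = q u z ∧
      c b d = q w z ∧ c d a = q z u ∧ c d b = q z w ∧ c a a = q u u ∧ c b b = q w w := by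
    intro u w z
    obtain ⟨v, hv⟩ := hq (fun i => if (i : ℕ) = 0 then u else if (i : ℕ) = 1 then w else z)
    refine ⟨v ⟨0, by omega⟩, v ⟨1, by omega⟩, v ⟨2, by omega⟩, ?_, ?_, ?_, ?_, ?_, ?_, ?_, ?_⟩ <;>
      · rw [hv]
        simp
  have hsw : ∀ u w u' w', q u w = q u' w' → q w u = q w' u' := by
    intro u w u' w' h
    obtain ⟨a, b, d, h1, h2, -⟩ := hpair u w w
    obtain ⟨a', b', d', h1', h2', -⟩ := hpair u' w' w'
    rw [← h1, ← h1'] at h
    rw [← h2, ← h2']
    exact hc.swap_eq h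
  have hcong : ∀ u w z, rk u = rk w → q u z = q w z := by
    intro u w z h
    obtain ⟨s, hs⟩ := (hrk u w).1 h
    obtain ⟨a, b, d, h1, h2, h3, h4, -⟩ := hpair u w z
    rw [← h1] at hs
    have h5 := hc.of_inl hs
    rw [← h3, ← h4, h5]
  have hcong' : ∀ u w z, rk u = rk w → q z u = q z w :=
    fun u w z h => hsw _ _ _ _ (hcong u w z h)
  -- the ranks in order
  let fi : Fintype W := Fintype.ofFinite W
  let K : Finset ℕ := Finset.univ.image rk
  let e := K.orderIsoOfFin rfl
  have hK : ∀ u, rk u ∈ K := fun u => Finset.mem_image_of_mem _ (Finset.mem_univ u)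
  have hrp : ∀ i : Fin K.card, ∃ u : W, rk u = e i := by
    intro i
    obtain ⟨u, -, hu⟩ := Finset.mem_image.1 (e i).2
    exact ⟨u, hu⟩
  choose rp hrp using hrp
  let ix : W → Fin K.card := fun u => e.symm ⟨rk u, hK u⟩
  have hix : ∀ u, rk (rp (ix u)) = rk u := by
    intro u
    rw [hrp]
    show ((e (e.symm ⟨rk u, hK u⟩) : K) : ℕ) = rk u
    rw [OrderIso.apply_symm_apply]
  have hlt : ∀ u w, ix u < ix w ↔ rk u < rk w := by
    intro u w
    show e.symm _ < e.symm _ ↔ _
    rw [OrderIso.lt_iff_lt]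
    rfl
  have hrplt : ∀ i j, i < j → rk (rp i) < rk (rp j) := by
    intro i j hij
    rw [hrp, hrp]
    exact e.strictMono hij
  have hinr : ∀ i j, i ≠ j → ∃ t, q (rp i) (rp j) = Sum.inr t := by
    intro i j hij
    cases h : q (rp i) (rp j) with
    | inr t => exact ⟨t, rfl⟩
    | inl s =>
      have h1 := (hrk _ _).2 ⟨s, h⟩
      rcases lt_or_gt_of_ne hij with h2 | h2
      · exact absurd h1 (hrplt _ _ h2).ne
      · exact absurd h1 (hrplt _ _ h2).ne'
  have hdg : ∀ u, ∃ s, q u u = Sum.inl s := fun u => (hrk u u).1 rfl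
  choose ty hty using hdg
  obtain ⟨t0, ht0⟩ : ∃ f : X, True := by
    obtain ⟨v⟩ := hs.ne
    exact ⟨cD P c v v, trivial⟩
  obtain ⟨f, hf, hf1, hf2⟩ := hs.uni K.card (fun i => ty (rp i))
    (fun i j => Sum.elim (fun _ => t0) id (q (rp i) (rp j))) (by
    intro m s hm hsm hnf
    rcases Nat.eq_zero_or_pos m with h0 | hpos
    · subst h0
      exact ⟨fun i => i.elim0, fun i => i.elim0, fun i => i.elim0⟩
    obtain ⟨v, hv⟩ := hq (fun a => rp (s ⟨min (a : ℕ) (m - 1), by omega⟩))
    have hi : ∀ i : Fin m, (⟨min (i : ℕ) (m - 1), by omega⟩ : Fin m) = i := fun i => Fin.ext (by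
      have := i.2
      simp only
      omega)
    refine ⟨fun i => v ⟨i, lt_of_lt_of_le i.2 hm⟩, fun i => ?_, fun i j hij => ?_⟩
    · have h1 := hv ⟨i, lt_of_lt_of_le i.2 hm⟩ ⟨i, lt_of_lt_of_le i.2 hm⟩
      simp only [hi] at h1
      rw [h1, hty]
    · have h1 := hv ⟨i, lt_of_lt_of_le i.2 hm⟩ ⟨j, lt_of_lt_of_le j.2 hm⟩
      simp only [hi] at h1
      rw [h1]
      obtain ⟨t, ht⟩ := hinr (s i) (s j) (hsm hij).ne
      rw [ht]
      rfl)
  have key : ∀ i j, c (f i) (f j) = q (rp i) (rp j) := by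
    intro i j
    have hl : ∀ i j, i < j → c (f i) (f j) = q (rp i) (rp j) := by
      intro i j hij
      rw [hf2 i j hij]
      obtain ⟨t, ht⟩ := hinr i j hij.ne
      rw [ht]
      rfl
    rcases lt_trichotomy i j with h | h | h
    · exact hl i j h
    · subst h
      rw [hf1, hty]
    · obtain ⟨a, b, d, h1, h2, -⟩ := hpair (rp j) (rp i) (rp i)
      have h4 := hl j i h
      rw [← h1] at h4
      have h5 := hc.swap_eq h4
      rw [h5, h2]
  refine ⟨fun u => f (ix u), fun u w => ⟨?_, ?_⟩⟩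
  · show c (f (ix u)) (f (ix w)) = _
    rw [key, hcong _ _ _ (hix u), hcong' _ _ _ (hix w)]
  · show f (ix u) < f (ix w) ↔ _
    rw [hf.lt_iff_lt, hlt]

/-- the fibres -/
theorem pf_CPS : T_CPS := by
  intro σ V S X _ _ P 𝔸 M c hs
  have hc := hs.col
  refine ⟨hs.finX, hs.ne, by have := hs.three; omega, ⟨fun x y => ?_, fun x y => ?_, ?_⟩,
    ?_, ?_⟩
  · rw [hc.cD_self, hc.ls_cD]
  · rw [hc.cD_self, hc.rs_cD]
  · intro t
    obtain ⟨x, y, h⟩ := hc.surX t
    exact ⟨x, y, cD_inr h⟩
  · intro n d hd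
    have hdd : ∀ i, d i i = P.fr (P.ls (d i i)) (P.ls (d i i)) := by
      intro i
      obtain ⟨v, hv⟩ := hd 1 (fun _ => i) (by have := hs.three; omega)
        (fun a b hab => by
          have h1 := a.2
          have h2 := b.2
          have h3 : (a : ℕ) < b := hab
          omega)
        (fun a b hab => by
          have h1 := a.2
          have h2 := b.2
          have h3 : (a : ℕ) < b := hab
          omega)
      rw [← hv 0 0 le_rfl, hc.cD_self, P.ls_fr]
    obtain ⟨f, hf, hf1, hfc⟩ := hs.uni n (fun i => P.ls (d i i)) d (by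
      intro m s hm hsm hne
      obtain ⟨v, hv⟩ := hd m s hm hsm hne
      refine ⟨v, fun i => ?_, fun i j hij => ?_⟩
      · have h1 := hv i i le_rfl
        rw [hc.cD_self] at h1
        rw [hc.diag, ← h1, P.ls_fr]
      · have h1 := hv i j hij.le
        have h2 : v i ≠ v j := by
          intro h
          apply hne i j hij
          rw [← h1, h, hc.cD_self]
          have h3 := hv i i le_rfl
          have h4 := hv j j le_rfl
          rw [hc.cD_self] at h3 h4
          rw [← h3, ← h4, P.ls_fr, P.ls_fr, h]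
        rw [hc.c_cD h2, h1])
    refine ⟨f, hf, fun i j hij => ?_⟩
    rcases eq_or_lt_of_le hij with h | h
    · rw [h, hdd, hc.cD_self, hc.vt_of (hf1 j)]
    · rw [cD_inr (hfc i j h)]
  · intro l x y hx hxy hxy'
    obtain ⟨hxi, hxt, hxA⟩ := hx
    have hyi : Function.Injective y := fun a b h => hxi (hxy' a b h)
    have hdia : ∀ a, c (y a) (y a) = c (x a) (x a) := by
      intro a
      have h1 := hxy a a le_rfl
      rw [hc.cD_self, hc.cD_self] at h1
      have h2 := congrArg P.ls h1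
      rw [P.ls_fr, P.ls_fr] at h2
      rw [hc.diag, hc.diag, h2]
    have key : ∀ a b, c (y a) (y b) = c (x a) (x b) := by
      intro a b
      by_cases hab : a = b
      · rw [hab, hdia]
      · rw [hc.c_cD (fun h => hab (hyi h)), hc.c_cD (fun h => hab (hxi h))]
        congr 1
        rcases le_total (y a) (y b) with h | h
        · exact hxy a b h
        · rw [hc.cD_swap (y b) (y a), hxy b a h, ← hc.cD_swap]
    refine ⟨hyi, fun a => (hdia a).trans (hxt a), ?_⟩
    exact relP_inv hs.tyi _ _ _ hxA (fun a b => key _ _)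

/-- the map on pairs for the structure of the fibres -/
theorem pf_BKG : T_BKG := by
  classical
  intro σ V S X _ _ P 𝔸 M c hS h h' hO hb
  have hc := hS.col
  obtain ⟨hex, hb2⟩ := hb
  refine ⟨?_, fun r x y x' y' => by rw [hex]⟩
  intro s k τ v hv hτ
  obtain ⟨e, he1, he2, he3, he4, he5⟩ := hb2 (Finset.univ.image v)
  have hm : ∀ a, v a ∈ Finset.univ.image v := fun a =>
    Finset.mem_image_of_mem v (Finset.mem_univ a)
  obtain ⟨ψ, hψ1, hψ2⟩ := hO.can.comb (Fin (arP (sigF S σ M) M s)) (fun l a => e (v a) l)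
  have hψ3 : ∀ a b, c (ψ a) (ψ b) = h' (v a) (v b) := by
    intro a b
    rw [hψ2, he5 _ (hm a) _ (hm b)]
  refine ⟨ψ, ?_, ?_, ?_⟩
  · cases s with
    | none => trivial
    | some i =>
      obtain ⟨θ, hθ⟩ : ∃ θ, θ = ((Finite.equivFin (SF S σ M)).symm i).2.2.2 := ⟨_, rfl⟩
      have hinj : ∀ l, Injective (fun a => v a l) := fun l => (hv l).1
      have hty : ∀ l a, c (v a l) (v a l) = Sum.inl (θ a) := by
        intro l a
        rw [hθ]
        exact (hv l).2.1 a
      have hF : ∀ a, FBl P c (θ a) (e (v a)) := by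
        intro a
        refine ⟨fun l => (he3 _ (hm a) l).trans (hty l a), fun l l' hne => ?_⟩
        rw [he4 _ (hm a) l l' hne, hc.vt_of (hty l a), hc.vt_of (hty l' a)]
      have hψt : ∀ a, c (ψ a) (ψ a) = Sum.inl (θ a) := by
        intro a
        rw [hψ2]
        exact hO.idem _ _ (hF a)
      refine ⟨?_, fun a => ?_, ?_⟩
      · intro a b hab
        by_contra hne
        have h1 : v a ≠ v b := fun h2 => hne (hinj 0 (congrFun h2 0))
        have h3 : θ a = θ b := by
          have h4 := hψt a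
          rw [hab, hψt b] at h4
          exact (Sum.inl_injective h4).symm
        have hFb := hF b
        rw [← h3] at hFb
        have h2 : c (ψ a) (ψ b) = Sum.inl (θ a) := by
          rw [← hψt a, hab]
        exact hO.ncol (θ a) _ _ (hF a) hFb (fun l l' => he1 _ (hm a) _ (hm b) h1 l l') (θ a)
          ((hψ2 a b).symm.trans h2)
      · rw [hψt a, hθ]
      · refine relP_cx hψ1 _ _ fun l => ?_
        refine relP_inv hS.tyi _ (fun a => v (((Finite.equivFin (SF S σ M)).symm i).2.2.1 a) l) _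
          (hv l).2.2 ?_
        intro a b
        by_cases hab : ((Finite.equivFin (SF S σ M)).symm i).2.2.1 a =
            ((Finite.equivFin (SF S σ M)).symm i).2.2.1 b
        · simp only [hab]
          exact he3 _ (hm _) l
        · exact he2 _ (hm _) _ (hm _) l fun h1 => hab (hinj l h1)
  · intro a b hab
    have h1 : v a = v b := hτ a b hab
    have h2 : (fun i => e (v a) i) = fun i => e (v b) i := by rw [h1]
    rw [← hc.eq_iff, hψ2, h2, ← hψ2]
    exact (hc.eq_iff _ _).2 rfl
  · intro a b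
    show Sum.elim (fun s => P.fr s s) id (c (ψ a) (ψ b)) = _
    rw [hψ3]

end Pool.Agent.H57.SO
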