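import Pool.Agent.H57.SO.Uv
import Pool.Agent.H57.EQD.BKS

/-!
# Several orbits of vertices: systems of blocks
-/

set_option autoImplicit false
set_option linter.unusedVariables false

namespace Pool.Agent.H57.SO

open Pool.Agent.H68.BP Pool.Agent.H58.SF Pool.Agent.H53.GC Pool.Agent.H53.NR
open Pool.Agent.H57.EQ (Cx Tour)
open Pool.Agent.H57.EQD (pat_ex Nm Nf key key_inj key_pat)
open Function

section

variable {V S X : Type}

open Classical in
/-- the type of a pair of different names -/
noncomputable def colN (P : Pal S X) (c : V → V → S ⊕ X) (n n' : Nm V) : S ⊕ X :=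
  if (∃ l, n.1 l = n.2 ∧ n'.1 l = n'.2) ∧ n.2 ≠ n'.2 then c n.2 n'.2
    else Sum.inr (P.fr (vt P c n.2) (vt P c n'.2))

theorem colN_pat (P : Pal S X) (c : V → V → S ⊕ X) (r : Fin 3) (x y x' y' s t : V) :
    colN P c (pat r x y, s) (pat r x' y', t) = colN P c (pat 0 x y, s) (pat 0 x' y', t) := by
  have h : (∃ l, pat r x y l = s ∧ pat r x' y' l = t) ↔
      ∃ l, pat 0 x y l = s ∧ pat 0 x' y' l = t :=
    (pat_ex r x y x' y' s t).trans (pat_ex 0 x y x' y' s t).symm
  unfold colN
  by_cases h2 : (∃ l, pat r x y l = s ∧ pat r x' y' l = t) ∧ s ≠ t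
  · have h3 : (∃ l, pat 0 x y l = s ∧ pat 0 x' y' l = t) ∧ s ≠ t := ⟨h.1 h2.1, h2.2⟩
    exact (if_pos h2).trans (if_pos h3).symm
  · have h3 : ¬ ((∃ l, pat 0 x y l = s ∧ pat 0 x' y' l = t) ∧ s ≠ t) :=
      fun h4 => h2 ⟨h.2 h4.1, h4.2⟩
    exact (if_neg h2).trans (if_neg h3).symm

/-- `E` realizes the names of the blocks in `F` -/
structure Rl [LinearOrder V] (P : Pal S X) (c : V → V → S ⊕ X) (code : (Fin 6 → V) → ℕ)
    (F : Finset (Fin 6 → V)) (E : Nm V → V) : Prop where
  mono : ∀ n n', Nf F n → Nf F n' → key code n < key code n' → E n < E n'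
  dia : ∀ n, Nf F n → c (E n) (E n) = c n.2 n.2
  col : ∀ n n', Nf F n → Nf F n' → n ≠ n' → c (E n) (E n') = colN P c n n'

theorem rl_same [LinearOrder V] {P : Pal S X} {c : V → V → S ⊕ X}
    {code : (Fin 6 → V) → ℕ} (hc : Injective code) {F F' : Finset (Fin 6 → V)}
    {E E' : Nm V → V} (hE : Rl P c code F E) (hE' : Rl P c code F' E') {I : Type}
    (n n' : I → Nm V) (hn : ∀ i, Nf F (n i)) (hn' : ∀ i, Nf F' (n' i))
    (hk : ∀ i j, key code (n i) < key code (n j) ↔ key code (n' i) < key code (n' j))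
    (hd : ∀ i, (n i).2 = (n' i).2)
    (hcc : ∀ i j, colN P c (n i) (n j) = colN P c (n' i) (n' j)) :
    Same c (fun i => E (n i)) (fun i => E' (n' i)) := by
  intro i j
  rcases lt_trichotomy (key code (n i)) (key code (n j)) with h | h | h
  · have h' := (hk i j).1 h
    have h1 : n i ≠ n j := fun e => h.ne (by rw [e])
    have h2 : n' i ≠ n' j := fun e => h'.ne (by rw [e])
    exact ⟨iff_of_true (hE.mono _ _ (hn i) (hn j) h) (hE'.mono _ _ (hn' i) (hn' j) h'), by
      rw [hE.col _ _ (hn i) (hn j) h1, hE'.col _ _ (hn' i) (hn' j) h2, hcc]⟩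
  · have h1 : n i = n j := key_inj hc h
    have h2 : key code (n' i) = key code (n' j) :=
      le_antisymm (not_lt.1 fun h3 => ((hk j i).2 h3).ne h.symm)
        (not_lt.1 fun h3 => ((hk i j).2 h3).ne h)
    have h3 : n' i = n' j := key_inj hc h2
    have h4 : E (n i) = E (n j) := by rw [h1]
    have h5 : E' (n' i) = E' (n' j) := by rw [h3]
    refine ⟨iff_of_false ?_ ?_, ?_⟩
    · show ¬ E (n i) < E (n j)
      rw [h4]
      exact lt_irrefl _
    · show ¬ E' (n' i) < E' (n' j)
      rw [h5]
      exact lt_irrefl _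
    · show c (E (n i)) (E (n j)) = c (E' (n' i)) (E' (n' j))
      rw [h4, h5, hE.dia _ (hn j), hE'.dia _ (hn' j), hd]
  · have h' := (hk j i).1 h
    have h1 : n i ≠ n j := fun e => h.ne (by rw [e])
    have h2 : n' i ≠ n' j := fun e => h'.ne (by rw [e])
    exact ⟨iff_of_false (lt_asymm (hE.mono _ _ (hn j) (hn i) h))
      (lt_asymm (hE'.mono _ _ (hn' j) (hn' i) h')), by
      rw [hE.col _ _ (hn i) (hn j) h1, hE'.col _ _ (hn' i) (hn' j) h2, hcc]⟩

theorem rl_exists {σ : Sig} [LinearOrder V] {P : Pal S X} {𝔸 : Str σ V} {M : ℕ}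
    {c : V → V → S ⊕ X} (hs : Stp P 𝔸 M c) {code : (Fin 6 → V) → ℕ} (hc : Injective code)
    (F : Finset (Fin 6 → V)) : ∃ E, Rl P c code F E := by
  classical
  let W : Type := {n : Nm V // Nf F n}
  have hfin : Finite W := by
    have h : (Set.range fun z : F × Fin 6 => ((z.1.1, z.1.1 z.2) : Nm V)).Finite :=
      Set.finite_range _
    refine (h.subset ?_ : Set.Finite {n : Nm V | Nf F n}).to_subtype
    rintro ⟨v, a⟩ ⟨h1, l, h2⟩
    exact ⟨(⟨v, h1⟩, l), Prod.ext rfl h2⟩
  let lo : LinearOrder W := LinearOrder.lift' (fun n : W => key code n.1)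
    ((key_inj hc).comp Subtype.val_injective)
  obtain ⟨e, he, hed, hec⟩ := @pf_SYS σ V S X _ P 𝔸 M c hs W lo hfin (fun n => n.1.2)
    (fun n n' => ∃ l, n.1.1 l = n.1.2 ∧ n'.1.1 l = n'.1.2)
    (fun n n' ⟨l, h1, h2⟩ => ⟨l, h2, h1⟩)
  obtain ⟨x₀⟩ := hs.ne
  refine ⟨fun n => if h : Nf F n then e ⟨n, h⟩ else x₀, ?_, ?_, ?_⟩
  · intro n n' hn hn' h
    rw [dif_pos hn, dif_pos hn']
    exact he h
  · intro n hn
    rw [dif_pos hn]
    exact hed ⟨n, hn⟩
  · intro n n' hn hn' h
    rw [dif_pos hn, dif_pos hn']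
    obtain ⟨h1, h2⟩ := hec ⟨n, hn⟩ ⟨n', hn'⟩ (fun h' => h (congrArg Subtype.val h'))
    unfold colN
    split
    · next h3 => exact h1 h3.1 h3.2
    · next h3 => exact h2 h3

end

theorem pf_BKS : T_BKS := by
  classical
  intro σ V S X _ P 𝔸 M c hs h hO'
  have hO := hO'.can
  have hex := hO'.exact
  have := hs.cnt
  obtain ⟨code, hc⟩ := exists_injective_nat (Fin 6 → V)
  choose E hE using fun F => rl_exists hs hc F
  refine ⟨fun v w => h (fun l => E {v, w} (v, v l)) (fun l => E {v, w} (w, w l)), ?_, ?_⟩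
  · intro r x y x' y'
    -- the names
    let Q : Bool → V × V := fun b => if b then (x', y') else (x, y)
    let nm : Fin 3 → Bool × Bool → Nm V := fun r i =>
      (pat r (Q i.1).1 (Q i.1).2, if i.2 then (Q i.1).2 else (Q i.1).1)
    have hmem : ∀ (r : Fin 3) (i : Bool × Bool), Nf {pat r x y, pat r x' y'} (nm r i) := by
      intro r i
      refine ⟨?_, ?_⟩
      · obtain ⟨b, d⟩ := i
        cases b <;> simp [nm, Q]
      · obtain ⟨l, hl, -⟩ := (pat_ex r (Q i.1).1 (Q i.1).2 (Q i.1).1 (Q i.1).2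
          (if i.2 then (Q i.1).2 else (Q i.1).1) (if i.2 then (Q i.1).2 else (Q i.1).1)).2 (by
            obtain ⟨b, d⟩ := i
            cases d <;> simp)
        exact ⟨l, hl⟩
    have hS : Same c (fun i => E {pat r x y, pat r x' y'} (nm r i))
        (fun i => E {pat 0 x y, pat 0 x' y'} (nm 0 i)) := by
      refine rl_same hc (hE _) (hE _) (nm r) (nm 0) (hmem r) (hmem 0) ?_ (fun i => rfl) ?_
      · intro i j
        change key code (pat r (Q i.1).1 (Q i.1).2, _) < key code (pat r (Q j.1).1 (Q j.1).2, _) ↔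
          key code (pat 0 (Q i.1).1 (Q i.1).2, _) < key code (pat 0 (Q j.1).1 (Q j.1).2, _)
        rw [key_pat hc, key_pat hc]
      · exact fun i j => colN_pat P c r _ _ _ _ _ _
    let ι : Fin 6 ⊕ Fin 6 → Bool × Bool :=
      Sum.elim (fun l => (false, pat 0 false true l)) (fun l => (true, pat 0 false true l))
    have hval : ∀ (r : Fin 3) (b : Bool) (l : Fin 6),
        E {pat r x y, pat r x' y'} (pat r (Q b).1 (Q b).2, pat r (Q b).1 (Q b).2 l) =
          pat r (E {pat r x y, pat r x' y'} (nm r (b, false)))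
            (E {pat r x y, pat r x' y'} (nm r (b, true))) l := by
      intro r b l
      exact pat_map (fun s => E {pat r x y, pat r x' y'} (pat r (Q b).1 (Q b).2, s)) r
        (Q b).1 (Q b).2 l
    have hval2 : ∀ (r : Fin 3) (b : Bool) (l : Fin 6),
        E {pat r x y, pat r x' y'} (nm r (b, pat 0 false true l)) =
          pat 0 (E {pat r x y, pat r x' y'} (nm r (b, false)))
            (E {pat r x y, pat r x' y'} (nm r (b, true))) l := by
      intro r b l
      exact pat_map (fun d => E {pat r x y, pat r x' y'} (nm r (b, d))) 0 false true l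
    have e1 : ∀ r : Fin 3, h (fun l => E {pat r x y, pat r x' y'} (pat r x y, pat r x y l))
        (fun l => E {pat r x y, pat r x' y'} (pat r x' y', pat r x' y' l)) =
        h (fun l => E {pat r x y, pat r x' y'} (nm r (false, pat 0 false true l)))
          (fun l => E {pat r x y, pat r x' y'} (nm r (true, pat 0 false true l))) := by
      intro r
      have h1 : (fun l => E {pat r x y, pat r x' y'} (pat r x y, pat r x y l)) =
          pat r (E {pat r x y, pat r x' y'} (nm r (false, false)))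
            (E {pat r x y, pat r x' y'} (nm r (false, true))) := funext fun l => hval r false l
      have h2 : (fun l => E {pat r x y, pat r x' y'} (pat r x' y', pat r x' y' l)) =
          pat r (E {pat r x y, pat r x' y'} (nm r (true, false)))
            (E {pat r x y, pat r x' y'} (nm r (true, true))) := funext fun l => hval r true l
      have h3 : (fun l => E {pat r x y, pat r x' y'} (nm r (false, pat 0 false true l))) =
          pat 0 (E {pat r x y, pat r x' y'} (nm r (false, false)))
            (E {pat r x y, pat r x' y'} (nm r (false, true))) := funext fun l => hval2 r false l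
      have h4 : (fun l => E {pat r x y, pat r x' y'} (nm r (true, pat 0 false true l))) =
          pat 0 (E {pat r x y, pat r x' y'} (nm r (true, false)))
            (E {pat r x y, pat r x' y'} (nm r (true, true))) := funext fun l => hval2 r true l
      rw [h1, h2, h3, h4]
      exact hex r _ _ _ _
    show h (fun l => E {pat r x y, pat r x' y'} (pat r x y, pat r x y l))
        (fun l => E {pat r x y, pat r x' y'} (pat r x' y', pat r x' y' l)) =
      h (fun l => E {pat 0 x y, pat 0 x' y'} (pat 0 x y, pat 0 x y l))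
        (fun l => E {pat 0 x y, pat 0 x' y'} (pat 0 x' y', pat 0 x' y' l))
    rw [e1 r, e1 0]
    refine hO.tinv _ _ _ _ ?_
    intro i j
    rcases i with i | i <;> rcases j with j | j
    · exact hS (ι (Sum.inl i)) (ι (Sum.inl j))
    · exact hS (ι (Sum.inl i)) (ι (Sum.inr j))
    · exact hS (ι (Sum.inr i)) (ι (Sum.inl j))
    · exact hS (ι (Sum.inr i)) (ι (Sum.inr j))
  · intro F
    refine ⟨fun v l => E F (v, v l), ?_, ?_, ?_, ?_, ?_⟩
    · intro v hv w hw hne l l' h1
      have hk : key code (v, v l) ≠ key code (w, w l') := fun h2 =>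
        hne (congrArg Prod.fst (key_inj hc h2))
      have hv' : Nf F (v, v l) := ⟨hv, l, rfl⟩
      have hw' : Nf F (w, w l') := ⟨hw, l', rfl⟩
      rcases lt_or_gt_of_ne hk with h2 | h2
      · exact ((hE F).mono _ _ hv' hw' h2).ne h1
      · exact ((hE F).mono _ _ hw' hv' h2).ne h1.symm
    · intro v hv w hw l hne
      have h1 := (hE F).col (v, v l) (w, w l) ⟨hv, l, rfl⟩ ⟨hw, l, rfl⟩
        (fun h => hne (congrArg Prod.snd h))
      rw [h1]
      exact if_pos ⟨⟨l, rfl, rfl⟩, hne⟩
    · intro v hv l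
      exact (hE F).dia (v, v l) ⟨hv, l, rfl⟩
    · intro v hv l l' hne
      have hne' : v l ≠ v l' := fun h => hne (by
        show E F (v, v l) = E F (v, v l')
        rw [h])
      have h1 := (hE F).col (v, v l) (v, v l') ⟨hv, l, rfl⟩ ⟨hv, l', rfl⟩
        (fun h => hne' (congrArg Prod.snd h))
      rw [h1]
      refine if_neg ?_
      rintro ⟨⟨l'', h2, h3⟩, -⟩
      exact hne' (h2.symm.trans h3)
    · intro v hv w hw
      refine hO.tinv _ _ _ _ ?_
      have h1 := rl_same hc (hE {v, w}) (hE F)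
        (Sum.elim (fun l => ((v, v l) : Nm V)) (fun l => (w, w l)))
        (Sum.elim (fun l => ((v, v l) : Nm V)) (fun l => (w, w l)))
        (by
          rintro (l | l)
          · exact ⟨by simp, l, rfl⟩
          · exact ⟨by simp, l, rfl⟩)
        (by
          rintro (l | l)
          · exact ⟨hv, l, rfl⟩
          · exact ⟨hw, l, rfl⟩)
        (fun i j => Iff.rfl) (fun i => rfl) (fun i j => rfl)
      intro i j
      have h2 := h1 i j
      rcases i with i | i <;> rcases j with j | j <;> exact h2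

end Pool.Agent.H57.SO
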