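import Pool.Agent.H57.SO.Uv
import Pool.Agent.H68.GC.OLF0
import Pool.Agent.H13.EQ.CYP

/-!
# Several orbits of vertices: the cyclic polymorphism of the template, cyclic behaviours
-/

set_option autoImplicit false
set_option linter.unusedVariables false

namespace Pool.Agent.H57.SO

open Pool.Agent.H68.BP Pool.Agent.H58.SF Pool.Agent.H53.GC Pool.Agent.H53.NR
open Pool.Agent.H57.EQ (Cx Tour)
open Pool.Agent.H13.EQ (majF majF_shift majF_not)
open Pool.Agent.H68.GC
open Function

theorem tau_shift {p : ℕ} [NeZero p] {S : Type} {τ : (ZMod p → S) → S}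
    (hτ : ∀ t, τ (fun i => t (i + 1)) = τ t) (j : ZMod p) (t : ZMod p → S) :
    τ (fun i => t (i + j)) = τ t := by
  have h : ∀ (n : ℕ) (t : ZMod p → S), τ (fun i => t (i + (n : ZMod p))) = τ t := by
    intro n
    induction n with
    | zero => intro t; simp
    | succ n ih =>
      intro t
      have h1 := ih (fun i => t (i + 1))
      rw [hτ] at h1
      rw [← h1]
      congr 1
      funext i
      push_cast
      rw [add_assoc]
  have h1 := h j.val t
  rwa [ZMod.natCast_val, ZMod.cast_id] at h1

theorem kap_shift {p : ℕ} [NeZero p] {S : Type}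
    {κ : (ZMod p → S) → (ZMod p → S) → Set (ZMod p) → Prop}
    (hκ : ∀ t t' A, κ (fun i => t (i + 1)) (fun i => t' (i + 1)) {i | i + 1 ∈ A} ↔ κ t t' A)
    (j : ZMod p) (t t' : ZMod p → S) (A : Set (ZMod p)) :
    κ (fun i => t (i + j)) (fun i => t' (i + j)) {i | i + j ∈ A} ↔ κ t t' A := by
  have h : ∀ (n : ℕ) (t t' : ZMod p → S) (A : Set (ZMod p)),
      κ (fun i => t (i + (n : ZMod p))) (fun i => t' (i + (n : ZMod p)))
        {i | i + (n : ZMod p) ∈ A} ↔ κ t t' A := by
    intro n
    induction n with
    | zero => intro t t' A; simp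
    | succ n ih =>
      intro t t' A
      have h1 := ih (fun i => t (i + 1)) (fun i => t' (i + 1)) {i | i + 1 ∈ A}
      rw [hκ] at h1
      rw [← h1]
      have e1 : ∀ t : ZMod p → S, (fun i => t (i + ((n + 1 : ℕ) : ZMod p))) =
          fun i => t (i + (n : ZMod p) + 1) := by
        intro t
        funext i
        push_cast
        rw [add_assoc]
      have e2 : {i : ZMod p | i + ((n + 1 : ℕ) : ZMod p) ∈ A} =
          {i | i + (n : ZMod p) ∈ {i | i + 1 ∈ A}} := by
        ext i
        simp only [Set.mem_ofPred_eq]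
        push_cast
        rw [add_assoc]
      rw [e1, e1, e2]
  have h1 := h j.val t t' A
  rwa [ZMod.natCast_val, ZMod.cast_id] at h1

theorem pf_CYP : T_CYP := by
  intro σ V S X _ P 𝔸 M c hS p f hp h2 hD τ κ F hF hτ hκ
  classical
  have : NeZero p := ⟨hp.ne_zero⟩
  have hodd : Odd p := hp.odd_of_ne_two (by omega)
  have hc := hS.col
  obtain ⟨hcyc, hD2⟩ := hD
  obtain ⟨hFp, hFe, hFt⟩ := hF
  obtain ⟨v₀⟩ := hS.ne
  let x₀ : X := cD P c v₀ v₀
  let K : (ZMod p → Ec S X) → ZMod p → (X × X) × Bool :=
    fun z j => Sum.elim (fun _ => ((x₀, x₀), false)) id (F (fun i => z (i + j)))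
  let E : (ZMod p → Ec S X) → Prop := fun z => κ (zL P z) (zR P z) (zA P z)
  have hEs : ∀ z j, E (fun i => z (i + j)) ↔ E z :=
    fun z j => kap_shift hκ j (zL P z) (zR P z) (zA P z)
  have hTs : ∀ z j, τ (zL P (fun i => z (i + j))) = τ (zL P z) :=
    fun z j => tau_shift hτ j (zL P z)
  refine ⟨fun z => if E z then Sum.inl (τ (zL P z))
    else Sum.inr ((f (fun j => (K z j).1.1), P.rv (f (fun j => P.rv (K z j).1.2))),
      majF (fun j => (K z j).2)), ?_, ?_⟩
  · -- polymorphism
    refine (poly_strOn _ _ _).2 ?_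
    intro s q hq
    have hG' := (poly_strOn _ _ _).1 hFp
    have hx : ∀ j : ZMod p, FamP 𝔸 M c s (fun e => F (fun i => q (i + j) e)) :=
      fun j => hG' s (fun i => q (i + j)) (fun i => hq (i + j))
    choose k T hT hkn hks hfam using hx
    have hE : ∀ j a b, k j a = k j b ↔ E (fun i => q i (a, b)) := by
      intro j a b
      rw [← hkn j a b, hFe]
      exact hEs (fun i => q i (a, b)) j
    -- the values of the equalities
    have hinl : ∀ j a b, E (fun i => q i (a, b)) →
        F (fun i => q (i + j) (a, b)) = Sum.inl (τ (zL P (fun i => q i (a, b)))) := by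
      intro j a b h
      obtain ⟨s', hs'⟩ := (hFe _).2 ((hEs (fun i => q i (a, b)) j).2 h)
      have h1 := hFt _ _ hs'
      have h3 := hTs (fun i => q i (a, b)) j
      rw [h3] at h1
      rw [h1] at hs'
      exact hs'
    -- the labels
    let lab : ZMod p → ℕ → ℕ := fun j v =>
      if h : ∃ a, k 0 a = v then k j (Classical.choose h) else 0
    have hlab : ∀ j a, lab j (k 0 a) = k j a := by
      intro j a
      have h : ∃ b, k 0 b = k 0 a := ⟨a, rfl⟩
      have h1 : lab j (k 0 a) = k j (Classical.choose h) := dif_pos h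
      rw [h1]
      exact (hE j _ _).2 ((hE 0 _ _).1 (Classical.choose_spec h))
    let T' : ℕ → ℕ → Bool := fun v v' =>
      if (∃ a, k 0 a = v) ∧ (∃ a, k 0 a = v') then majF (fun j => T j (lab j v) (lab j v'))
      else decide (v < v')
    have hT' : ∀ a b, T' (k 0 a) (k 0 b) = majF (fun j => T j (k j a) (k j b)) := by
      intro a b
      change (if _ then _ else _) = _
      rw [if_pos ⟨⟨a, rfl⟩, ⟨b, rfl⟩⟩]
      simp only [hlab]
    have hKs : ∀ a b, ¬ E (fun i => q i (a, b)) → ∀ j, ∃ t,
        F (fun i => q (i + j) (a, b)) = Sum.inr t ∧ K (fun i => q i (a, b)) j = t ∧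
          t.2 = T j (k j a) (k j b) := by
      intro a b h j
      cases ht : F (fun i => q (i + j) (a, b)) with
      | inl s' => exact absurd ((hE j a b).1 ((hkn j a b).1 ⟨s', ht⟩)) h
      | inr t =>
        refine ⟨t, rfl, ?_, hks j a b t ht⟩
        change Sum.elim _ id (F (fun i => q (i + j) (a, b))) = _
        rw [ht]
        rfl
    refine ⟨k 0, T', ?_, ?_, ?_, ?_⟩
    · intro v v' hne
      by_cases h : (∃ a, k 0 a = v) ∧ (∃ a, k 0 a = v')
      · obtain ⟨⟨a, rfl⟩, ⟨b, rfl⟩⟩ := h
        rw [hT', hT', ← majF_not hodd]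
        congr 1
        funext j
        exact hT j _ _ (fun h => hne ((hE 0 _ _).2 ((hE j _ _).1 h)))
      · have h' : ¬ ((∃ a, k 0 a = v') ∧ (∃ a, k 0 a = v)) := fun h' => h ⟨h'.2, h'.1⟩
        change (if _ then _ else _) = !(if _ then _ else _)
        rw [if_neg h, if_neg h', ← decide_not, decide_eq_decide, not_lt]
        exact ⟨fun h => h.le, fun h => lt_of_le_of_ne h (Ne.symm hne)⟩
    · intro a b
      change (∃ t, (if E (fun i => q i (a, b)) then Sum.inl _ else Sum.inr _) = Sum.inl t) ↔ _
      rw [hE 0]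
      by_cases h : E (fun i => q i (a, b))
      · rw [if_pos h]
        exact ⟨fun _ => h, fun _ => ⟨_, rfl⟩⟩
      · rw [if_neg h]
        exact ⟨fun ⟨t, h'⟩ => absurd h' (by simp), fun h' => absurd h' h⟩
    · intro a b t ht
      change (if E (fun i => q i (a, b)) then Sum.inl _ else Sum.inr _) = Sum.inr t at ht
      by_cases h : E (fun i => q i (a, b))
      · rw [if_pos h] at ht
        exact absurd ht (by simp)
      · rw [if_neg h] at ht
        rw [← Sum.inr_injective ht, hT']
        change majF (fun j => (K (fun i => q i (a, b)) j).2) = _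
        congr 1
        funext j
        obtain ⟨t', h1, h2, h3⟩ := hKs a b h j
        rw [h2, h3]
    · intro rk hrk
      have hex : ∀ j, ∃ x : Fin (arP σ M s) → V, relP 𝔸 M s x ∧
          (∀ a b, x a = x b ↔ k j a = k j b) ∧
          (∀ a b t, F (fun i => q (i + j) (a, b)) = Sum.inl t → c (x a) (x b) = Sum.inl t) ∧
          ∀ a b t, F (fun i => q (i + j) (a, b)) = Sum.inr t →
            c (x a) (x b) = Sum.inr (if rk a < rk b then t.1.1 else t.1.2) := by
        intro j
        refine hfam j rk fun a b => ?_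
        rw [hrk, hE 0, hE j]
      choose x hxR hxk hxi hxc using hex
      have hEd : ∀ a, E (fun i => q i (a, a)) := fun a => (hE 0 a a).1 rfl
      have hxt : ∀ j a, c (x j a) (x j a) = Sum.inl (τ (zL P (fun i => q i (a, a)))) :=
        fun j a => hxi j a a _ (hinl j a a (hEd a))
      -- the domain
      let W : Type := Set.range (k 0)
      let pr : Fin (arP σ M s) → W := fun a => ⟨k 0 a, a, rfl⟩
      have hpr : ∀ w : W, ∃ a, w = pr a := by
        rintro ⟨v, a, rfl⟩
        exact ⟨a, rfl⟩
      let Gm : ZMod p → W → V := fun j w => x j (Classical.choose w.2)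
      have hGm : ∀ j a, Gm j (pr a) = x j a := by
        intro j a
        have h1 : k 0 (Classical.choose (pr a).2) = k 0 a := Classical.choose_spec (pr a).2
        exact (hxk j _ _).2 ((hE j _ _).2 ((hE 0 _ _).1 h1))
      have hGi : ∀ j, Injective (Gm j) := by
        intro j w w' h
        obtain ⟨a, rfl⟩ := hpr w
        obtain ⟨b, rfl⟩ := hpr w'
        rw [hGm, hGm] at h
        exact Subtype.ext ((hE 0 _ _).2 ((hE j _ _).1 ((hxk j _ _).1 h)))
      have hGt : ∀ j w, c (Gm j w) (Gm j w) = c (Gm 0 w) (Gm 0 w) := by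
        intro j w
        obtain ⟨a, rfl⟩ := hpr w
        rw [hGm, hGm, hxt, hxt]
      let rkW : W → ℕ := fun w => rk (Classical.choose w.2)
      have hrkW : ∀ a, rkW (pr a) = rk a := by
        intro a
        have h1 : k 0 (Classical.choose (pr a).2) = k 0 a := Classical.choose_spec (pr a).2
        exact (hrk _ _).2 h1
      have hrkI : Injective rkW := by
        intro w w' h
        obtain ⟨a, rfl⟩ := hpr w
        obtain ⟨b, rfl⟩ := hpr w'
        rw [hrkW, hrkW] at h
        exact Subtype.ext ((hrk _ _).1 h)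
      obtain ⟨ψ, hψi, hψC, hψt, hψc⟩ := hD2 W rkW hrkI Gm hGi hGt
      refine ⟨fun a => ψ (pr a), ?_, ?_, ?_, ?_⟩
      · refine relP_cx hψC s pr ?_
        intro i
        simp only [hGm]
        exact hxR i
      · intro a b
        constructor
        · intro h
          exact congrArg Subtype.val (hψi h)
        · intro h
          have : pr a = pr b := Subtype.ext h
          change ψ (pr a) = ψ (pr b)
          rw [this]
      · intro a b t ht
        change (if E (fun i => q i (a, b)) then Sum.inl _ else Sum.inr _) = Sum.inl t at ht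
        by_cases h : E (fun i => q i (a, b))
        · rw [if_pos h] at ht
          have htt := Sum.inl_injective ht
          have hk0 : k 0 a = k 0 b := (hE 0 a b).2 h
          have hpe : pr b = pr a := Subtype.ext hk0.symm
          change c (ψ (pr a)) (ψ (pr b)) = _
          rw [hpe, hψt, hGm]
          have h1 := hxi 0 a b _ (hinl 0 a b h)
          rw [← (hxk 0 a b).2 hk0] at h1
          rw [h1, ← htt]
        · rw [if_neg h] at ht
          exact absurd ht (by simp)
      · intro a b t ht
        change (if E (fun i => q i (a, b)) then Sum.inl _ else Sum.inr _) = Sum.inr t at ht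
        by_cases h : E (fun i => q i (a, b))
        · rw [if_pos h] at ht
          exact absurd ht (by simp)
        · rw [if_neg h] at ht
          have htt := Sum.inr_injective ht
          choose t' h1 h2 h3 using hKs a b h
          have hK1 : (fun j => (K (fun i => q i (a, b)) j).1.1) = fun j => (t' j).1.1 := by
            funext j
            rw [h2]
          have hK2 : (fun j => P.rv (K (fun i => q i (a, b)) j).1.2) =
              fun j => P.rv (t' j).1.2 := by
            funext j
            rw [h2]
          have hne : rk a ≠ rk b := fun h' => h ((hE 0 a b).1 ((hrk a b).1 h'))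
          rcases lt_or_gt_of_ne hne with hlt | hgt
          · rw [if_pos hlt, ← htt]
            refine hψc (pr a) (pr b) _ (by rw [hrkW, hrkW]; exact hlt) ?_
            intro i
            rw [hGm, hGm, hxc i a b _ (h1 i), if_pos hlt]
            exact congrArg Sum.inr (congrFun hK1 i).symm
          · have hnlt : ¬ rk a < rk b := not_lt.2 hgt.le
            rw [if_neg hnlt, ← htt]
            have h5 : c (ψ (pr b)) (ψ (pr a)) =
                Sum.inr (f (fun j => P.rv (K (fun i => q i (a, b)) j).1.2)) := by
              refine hψc (pr b) (pr a) _ (by rw [hrkW, hrkW]; exact hgt) ?_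
              intro i
              have h6 := hxc i a b _ (h1 i)
              rw [if_neg hnlt] at h6
              rw [hGm, hGm, hc.swap _ _ _ h6]
              exact congrArg Sum.inr (congrFun hK2 i).symm
            exact hc.swap _ _ _ h5
  · -- cyclic
    intro z
    have hK : ∀ j, K (fun i => z (i + 1)) j = K z (j + 1) := by
      intro j
      change Sum.elim _ id (F (fun i => z (i + j + 1))) = Sum.elim _ id (F (fun i => z (i + (j + 1))))
      simp only [add_assoc]
    have h1 : E (fun i => z (i + 1)) ↔ E z := hEs z 1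
    simp only [hK, h1, hTs z 1]
    rw [hcyc (fun j => (K z j).1.1), hcyc (fun j => P.rv (K z j).1.2),
      majF_shift (fun j => (K z j).2)]

/-- intersection of kernels -/
theorem pf_BHI : T_BHI := by
  intro σ V S X _ P 𝔸 M c hs hu I τ κ κ' h1 h2 W _ G
  obtain ⟨τ₂, κ₂, hu1, hu2, hu3⟩ := hu
  obtain ⟨ψ, hψ, hψt, hψk⟩ := h1 W G
  obtain ⟨ψ', hψ', hψt', hψk'⟩ := h2 W G
  obtain ⟨φ, hφ, hφt, hφk⟩ := hu1 W ![ψ, ψ']
  have ht : ∀ w, (fun i => vt P c ((![ψ, ψ'] : Fin 2 → W → V) i w)) =
      fun _ => τ (fun i => vt P c (G i w)) := by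
    intro w
    funext i
    fin_cases i
    · exact hψt w
    · exact hψt' w
  refine ⟨φ, fun l z hz => hφ l z ?_, fun w => ?_, fun u w => ?_⟩
  · intro i
    fin_cases i
    · exact hψ l z hz
    · exact hψ' l z hz
  · rw [hφt, ht, hu2]
  · rw [hφk, ht, ht]
    constructor
    · intro h
      have h3 := hu3 _ _ _ h
      have h4 : ψ u = ψ w := by
        have : (0 : Fin 2) ∈ {i | (![ψ, ψ'] : Fin 2 → W → V) i u =
            (![ψ, ψ'] : Fin 2 → W → V) i w} := by
          rw [h3]
          exact Set.mem_univ _
        exact this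
      have h5 : ψ' u = ψ' w := by
        have : (1 : Fin 2) ∈ {i | (![ψ, ψ'] : Fin 2 → W → V) i u =
            (![ψ, ψ'] : Fin 2 → W → V) i w} := by
          rw [h3]
          exact Set.mem_univ _
        exact this
      exact ⟨(hψk u w).1 h4, (hψk' u w).1 h5⟩
    · rintro ⟨h3, h4⟩
      have h5 := (hψk u w).2 h3
      have h6 := (hψk' u w).2 h4
      have h7 : {i | (![ψ, ψ'] : Fin 2 → W → V) i u = (![ψ, ψ'] : Fin 2 → W → V) i w} =
          Set.univ := by
        ext i
        fin_cases i
        · simpa using h5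
        · simpa using h6
      have h8 : τ (fun i => vt P c (G i u)) = τ (fun i => vt P c (G i w)) := by
        rw [← hψt, ← hψt, h5]
      have h9 := (hφk u u).1 rfl
      rw [ht] at h9
      rw [h7, ← h8]
      have h10 : {i | (![ψ, ψ'] : Fin 2 → W → V) i u = (![ψ, ψ'] : Fin 2 → W → V) i u} =
          Set.univ := by
        ext i
        simp
      rw [h10] at h9
      exact h9

/-- cyclic behaviours -/
theorem pf_CYB : T_CYB := by
  intro σ V S X _ P 𝔸 M c hs hI p hp τ κ hκ hτ
  have : NeZero p := ⟨hp.ne_zero⟩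
  -- rotations
  have hrot : ∀ j : ZMod p, Bh P 𝔸 c τ
      (fun t t' A => κ (fun i => t (i + j)) (fun i => t' (i + j)) {i | i + j ∈ A}) := by
    intro j W _ G
    obtain ⟨ψ, h1, h2, h3⟩ := hκ W (fun i => G (i + j))
    refine ⟨ψ, fun l z hz => h1 l z fun i => hz (i + j), fun w => ?_, fun u w => ?_⟩
    · rw [h2]
      exact tau_shift hτ j (fun i => vt P c (G i w))
    · rw [h3]
      rfl
  -- intersections over sets of rotations
  have hall : ∀ n : ℕ, Bh P 𝔸 c τ (fun t t' A => ∀ m : ℕ, m ≤ n →
      κ (fun i => t (i + (m : ZMod p))) (fun i => t' (i + (m : ZMod p)))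
        {i | i + (m : ZMod p) ∈ A}) := by
    intro n
    induction n with
    | zero =>
      intro W _ G
      obtain ⟨ψ, h1, h2, h3⟩ := hrot 0 W G
      refine ⟨ψ, h1, h2, fun u w => ?_⟩
      rw [h3]
      constructor
      · intro h m hm
        obtain rfl : m = 0 := by omega
        simpa using h
      · intro h
        simpa using h 0 le_rfl
    | succ n ih =>
      intro W _ G
      obtain ⟨ψ, h1, h2, h3⟩ := hI (ZMod p) τ _ _ ih (hrot ((n + 1 : ℕ) : ZMod p)) W G
      refine ⟨ψ, h1, h2, fun u w => ?_⟩
      rw [h3]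
      constructor
      · rintro ⟨h4, h5⟩ m hm
        rcases Nat.lt_or_ge n m with h6 | h6
        · obtain rfl : m = n + 1 := by omega
          exact h5
        · exact h4 m h6
      · intro h
        exact ⟨fun m hm => h m (by omega), h (n + 1) le_rfl⟩
  refine ⟨_, hall p, fun t t' A => ?_⟩
  -- all rotations
  have hiff : ∀ (t t' : ZMod p → S) (A : Set (ZMod p)),
      (∀ m : ℕ, m ≤ p → κ (fun i => t (i + (m : ZMod p)))
      (fun i => t' (i + (m : ZMod p))) {i | i + (m : ZMod p) ∈ A}) ↔
      ∀ j : ZMod p, κ (fun i => t (i + j)) (fun i => t' (i + j)) {i | i + j ∈ A} := by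
    intro t t' A
    constructor
    · intro h j
      have h1 := h j.val (ZMod.val_lt j).le
      rwa [ZMod.natCast_val, ZMod.cast_id] at h1
    · intro h m _
      exact h _
  refine (hiff (fun i => t (i + 1)) (fun i => t' (i + 1)) {i | i + 1 ∈ A}).trans
    (Iff.trans ?_ (hiff t t' A).symm)
  constructor
  · intro h j
    have h1 := h (j - 1)
    have e1 : ∀ t : ZMod p → S, (fun i => t (i + (j - 1) + 1)) = fun i => t (i + j) := by
      intro t
      funext i
      congr 1
      ring
    have e2 : {i : ZMod p | i + (j - 1) ∈ {i | i + 1 ∈ A}} = {i | i + j ∈ A} := by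
      ext i
      simp only [Set.mem_ofPred_eq]
      have : i + (j - 1) + 1 = i + j := by ring
      rw [this]
    rw [e1, e1, e2] at h1
    exact h1
  · intro h j
    have h1 := h (j + 1)
    have e1 : ∀ t : ZMod p → S, (fun i => t (i + j + 1)) = fun i => t (i + (j + 1)) := by
      intro t
      funext i
      congr 1
      ring
    have e2 : {i : ZMod p | i + j ∈ {i | i + 1 ∈ A}} = {i | i + (j + 1) ∈ A} := by
      ext i
      simp only [Set.mem_ofPred_eq]
      have : i + j + 1 = i + (j + 1) := by ring
      rw [this]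
    rw [e1, e1, e2]
    exact h1

end Pool.Agent.H57.SO
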