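import Pool.Agent.H57.SO.Uv
import Pool.Agent.H68.GC.OLF0

/-!
# Several orbits of vertices: cyclic functions for the fibres
-/

set_option autoImplicit false

namespace Pool.Agent.H57.SO

open Pool.Agent.H68.BP Pool.Agent.H58.SF Pool.Agent.H53.GC Pool.Agent.H53.NR
open Pool.Agent.H57.EQ (Cx Tour)
open Function

variable {V S X : Type}

/-- combinations of tuples in the fibres -/
theorem ddx_fib {σ : Sig} [LinearOrder V] [Finite S] {P : Pal S X} {𝔸 : Str σ V} {M : ℕ}
    {c : V → V → S ⊕ X} (hs : Stp P 𝔸 M c) {p n : ℕ} {H : (ZMod p → X × Bool) → X × Bool}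
    (hH : IsPoly (template (fib 𝔸 M c) M (cD P c)) (template (fib 𝔸 M c) M (cD P c)) H)
    (G : ZMod p → Fin n → V) (hG : ∀ i, Injective (G i)) (t : Fin n → S)
    (ht : ∀ i a, c (G i a) (G i a) = Sum.inl (t a)) :
    ∀ (s0 : SF S σ M) (sv : Fin s0.2.1 → Fin n), StrictMono sv →
      (∀ a, t (sv a) = s0.2.2.2 a) →
      (∀ i, relP 𝔸 M s0.1 (fun a => G i (sv (s0.2.2.1 a)))) →
      ∃ x : Fin s0.2.1 → V, Injective x ∧ (∀ a, c (x a) (x a) = Sum.inl (t (sv a))) ∧
        relP 𝔸 M s0.1 (fun a => x (s0.2.2.1 a)) ∧ ∀ a b, a < b →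
          c (x a) (x b) = Sum.inr (H (fun l => (cD P c (G l (sv a)) (G l (sv b)), false))).1 := by
  classical
  intro s0
  obtain ⟨i0, rfl⟩ := (Finite.equivFin (SF S σ M)).symm.surjective s0
  intro sv hsv hty hA
  have hp := (Pool.Agent.H68.GC.poly_strOn _ _ _).1 hH
    (⟨some i0, id⟩ : Sym (sigF S σ M) M)
    (fun l ab => (cD P c (G l (sv ab.1)) (G l (sv ab.2)), decide (ab.1 = ab.2)))
    (fun l => ⟨fun a => G l (sv a), ⟨(hG l).comp hsv.injective,
        fun a => (ht l (sv a)).trans (congrArg Sum.inl (hty a)), hA l⟩,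
      fun a b hab => by
        have h1 : a = b := hab
        rw [h1],
      fun a b _ => rfl⟩)
  obtain ⟨x, ⟨hxi, hxt, hxA⟩, -, hx⟩ := hp
  refine ⟨x, hxi, fun a => (hxt a).trans (congrArg Sum.inl (hty a).symm), hxA, ?_⟩
  intro a b hab
  have h1 := hx a b hab.le
  change H (fun l => (cD P c (G l (sv a)) (G l (sv b)), decide (a = b))) =
    (cD P c (x a) (x b), decide (a = b)) at h1
  rw [decide_eq_false hab.ne] at h1
  have h2 := congrArg Prod.fst h1
  rw [h2]
  exact hs.col.c_cD (fun h => hab.ne (hxi h))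

theorem pf_DDX : T_DDX := by
  classical
  intro σ V S X _ _ P 𝔸 M c hs p H hH hcyc
  have hc := hs.col
  refine ⟨fun q => ?_, fun W _ rk hrk G hG hGt => ?_⟩
  · exact congrArg Prod.fst (hcyc (fun i => (q i, false)))
  let lo : LinearOrder W := LinearOrder.lift' rk hrk
  let fi : Fintype W := Fintype.ofFinite W
  obtain ⟨n, hn⟩ : ∃ n, n = Fintype.card W := ⟨_, rfl⟩
  let e' : Fin n ≃o W := Fintype.orderIsoFinOfCardEq W hn.symm
  let e : W ≃ Fin n := e'.symm.toEquiv
  have he : ∀ u w, rk u < rk w → e u < e w := fun u w h => e'.symm.strictMono h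
  let G' : ZMod p → Fin n → V := fun l i => G l (e.symm i)
  have hG' : ∀ l, Injective (G' l) := fun l => (hG l).comp e.symm.injective
  let t : Fin n → S := fun i => vt P c (G 0 (e.symm i))
  have ht : ∀ i a, c (G' i a) (G' i a) = Sum.inl (t a) := fun i a =>
    (hGt i (e.symm a)).trans (hc.diag _)
  have hfib := ddx_fib hs hH G' hG' t ht
  obtain ⟨ψ0, hmono, hψd, hψ0⟩ := hs.uni n t
    (fun i j => (H (fun l => (cD P c (G' l i) (G' l j), false))).1)
    (by
      intro m s hm hsm hfr
      rcases Nat.eq_zero_or_pos m with h0 | hpos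
      · subst h0
        exact ⟨fun i => i.elim0, fun i => i.elim0, fun i => i.elim0⟩
      obtain ⟨x, -, hx1, -, hx2⟩ := hfib
        ⟨none, ⟨m, Nat.lt_succ_of_le hm⟩, fun a => ⟨min (a : ℕ) (m - 1), by
            show min (a : ℕ) (m - 1) < m
            omega⟩,
          fun a => t (s a)⟩ s hsm (fun a => rfl) (fun i => trivial)
      exact ⟨x, hx1, hx2⟩)
  refine ⟨fun w => ψ0 (e w), hmono.injective.comp e.injective, fun l z hz => ?_, fun w => ?_,
    fun u w q hrw hq => ?_⟩
  · let K : Finset (Fin n) := Finset.univ.image (fun a => e (z a))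
    have hKc : K.card ≤ σ.ar l := by
      refine le_trans Finset.card_image_le ?_
      simp
    let sv : Fin K.card → Fin n := K.orderEmbOfFin rfl
    have hsv : StrictMono sv := (K.orderEmbOfFin rfl).strictMono
    have hex : ∀ a : Fin (σ.ar l), ∃ b : Fin K.card, sv b = e (z a) := by
      intro a
      have h1 : e (z a) ∈ K := Finset.mem_image_of_mem _ (Finset.mem_univ a)
      have h2 : e (z a) ∈ Set.range (K.orderEmbOfFin rfl) := by
        rw [Finset.range_orderEmbOfFin]
        exact h1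
      exact h2
    choose ε hε using hex
    obtain ⟨x, hxi, hxt, hxA, hxc⟩ := hfib
      ⟨some l, ⟨K.card, Nat.lt_succ_of_le hKc⟩, ε, fun b => t (sv b)⟩ sv hsv (fun a => rfl)
      (fun i => by
        have h1 := hz i
        have h2 : (fun a => G' i (sv (ε a))) = fun a => G i (z a) := by
          funext a
          change G i (e.symm (sv (ε a))) = _
          rw [hε, e.symm_apply_apply]
        change 𝔸 l (fun a => G' i (sv (ε a)))
        rw [h2]
        exact h1)
    refine hs.tyi l (fun a => x (ε a)) _ hxA (fun a b => ?_)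
    have key : ∀ a b : Fin K.card, a < b → c (ψ0 (sv a)) (ψ0 (sv b)) = c (x a) (x b) := by
      intro a b hab
      rw [hψ0 _ _ (hsv hab)]
      exact (hxc a b hab).symm
    change c (ψ0 (e (z a))) (ψ0 (e (z b))) = c (x (ε a)) (x (ε b))
    rw [← hε a, ← hε b]
    rcases lt_trichotomy (ε a) (ε b) with h | h | h
    · exact key _ _ h
    · rw [h, hψd]
      exact (hxt (ε b)).symm
    · exact hc.swap_eq (key _ _ h)
  · change c (ψ0 (e w)) (ψ0 (e w)) = _
    rw [hψd, hc.diag (G 0 w)]
    change Sum.inl (vt P c (G 0 (e.symm (e w)))) = _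
    rw [e.symm_apply_apply]
  · have h1 := hψ0 (e u) (e w) (he u w hrw)
    refine h1.trans (congrArg (fun t => Sum.inr (H t).1) ?_)
    funext l
    change (cD P c (G l (e.symm (e u))) (G l (e.symm (e w))), false) = (q l, false)
    rw [e.symm_apply_apply, e.symm_apply_apply, cD_inr (hq l)]

end Pool.Agent.H57.SO
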