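import Pool.Agent.H57.SO.Asm
import Pool.Agent.H57.SO.Uv
import Pool.Agent.H57.SO.BKS
import Pool.Agent.H57.SO.DDX
import Pool.Agent.H57.SO.CYP
import Pool.Agent.H57.EQ.All

/-!
# Several orbits of vertices: the parts
-/

set_option autoImplicit false

namespace Pool.Agent.H57.SO

open Pool.Agent.H68.BP Pool.Agent.H58.SF Pool.Agent.H53.GC Pool.Agent.H53.NR
open Pool.Agent.H57.EQ (Cx Tour all_SEL all_VAL)
open Function

/-- an Olšák polymorphism of the template of the fibres -/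
theorem all_OLI : ∀ (σ : Sig) (V S X : Type) [LinearOrder V] [Finite S] (P : Pal S X)
    (𝔸 : Str σ V) (M : ℕ) (c : V → V → S ⊕ X), Stp P 𝔸 M c →
    ∀ h, GoodMap (fib 𝔸 M c) M (cD P c) h →
    HasOlsak (template (fib 𝔸 M c) M (cD P c)) (template (fib 𝔸 M c) M (cD P c)) := by
  intro σ V S X _ _ P 𝔸 M c hs h hh
  exact asm_olsak Pool.Agent.H18.GC.pf_COR Pool.Agent.H18.GC.pf_OMG
    (pf_FIN Pool.Agent.H19.BPG.pf_NRM) (Pool.Agent.H68.GC.pf_OLF all_SEL)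
    Pool.Agent.H18.GC.pf_GEO
    (Pool.Agent.H91.GC.pf_MXV all_VAL Pool.Agent.H55.GC.pf_CNS Pool.Agent.H19.BPG.pf_EX)
    (Pool.Agent.H34.BPG.pf_MXP all_VAL Pool.Agent.H55.GC.pf_CNS Pool.Agent.H19.BPG.pf_EX)
    Pool.Agent.H18.GC.pf_LIM Pool.Agent.H69.NR.pf_CA2 Pool.Agent.H44.EQ.all_NR3 pf_CPS hs hh

/-- cyclic functions for all large primes -/
theorem all_dd : ∀ (σ : Sig) (V S X : Type) [LinearOrder V] (P : Pal S X) (𝔸 : Str σ V)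
    (M : ℕ) (c : V → V → S ⊕ X), Stp P 𝔸 M c → ∀ h, Core P 𝔸 c h → DdAll 𝔸 c := by
  intro σ V S X _ P 𝔸 M c hs h hh
  exact asm_dd all_OLI pf_BKS pf_BKG
    (Pool.Agent.H63.EQM.pf_CYC (Pool.Agent.H3.EQ.pf_CYF Pool.Agent.H58.CT.cyclic_terms
      Pool.Agent.H18.GC.pf_COR)) pf_DDX hs hh

/-- The template of a core does not pp-construct `K₃`. -/
theorem all_tpl (hSRT : T_SRT) (hKER : T_KER) (hINJ2 : T_INJ2) (hCAB : T_CAB) (hTOF : T_TOF) :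
    ∀ (σ : Sig) (V S X : Type) [LinearOrder V] (P : Pal S X) (𝔸 : Str σ V)
      (M : ℕ) (c : V → V → S ⊕ X), Stp P 𝔸 M c → ∀ h, Core P 𝔸 c h →
      ¬ PPConstructsK3 (tpl 𝔸 M c) := by
  intro σ V S X _ P 𝔸 M c hs h hh
  exact asm_tpl all_dd hSRT hKER hINJ2 pf_BHI pf_CYB hCAB hTOF pf_CYP
    (Pool.Agent.H88.EQM.pf_NKC all_SEL) hs hh

end Pool.Agent.H57.SO
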