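import Pool.Agent.H57.SO.Uv
import Pool.Agent.H68.GC.OLF0
import Pool.Agent.H49.EQ.ALW

/-!
# Several orbits of vertices: from linear orders to tournaments
-/

set_option autoImplicit false
set_option linter.unusedVariables false

namespace Pool.Agent.H57.SO

open Pool.Agent.H68.BP Pool.Agent.H58.SF Pool.Agent.H53.GC Pool.Agent.H53.NR
open Pool.Agent.H57.EQ (Cx Tour)
open Pool.Agent.H68.GC
open Function

/-! ### Majority -/

/-- the majority of a function on a finite type -/
noncomputable def majG {A : Type} (g : A → Bool) : Bool :=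
  decide (Nat.card A < 2 * Nat.card {a // g a = true})

theorem majG_equiv {A : Type} (g : A → Bool) (e : A ≃ A) :
    majG (fun a => g (e a)) = majG g := by
  unfold majG
  have h : Nat.card {a // g (e a) = true} = Nat.card {a // g a = true} :=
    Nat.card_congr (e.subtypeEquiv fun a => Iff.rfl)
  rw [h]

theorem majG_not {A : Type} [Finite A] (hodd : Odd (Nat.card A)) (g : A → Bool) :
    majG (fun a => !(g a)) = !(majG g) := by
  unfold majG
  have h : Nat.card {a // g a = true} + Nat.card {a // (!(g a)) = true} = Nat.card A := by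
    rw [← Nat.card_sum]
    refine Nat.card_congr ?_
    have h1 : ∀ a, ((!(g a)) = true) ↔ ¬ (g a = true) := by
      intro a
      cases g a <;> simp
    classical
    exact (Equiv.sumCongr (Equiv.refl _) (Equiv.subtypeEquivRight h1)).trans
      (Equiv.sumCompl fun a => g a = true)
  obtain ⟨k, hk⟩ := hodd
  rw [← decide_not, decide_eq_decide]
  change Nat.card A < 2 * Nat.card {a // (!(g a)) = true} ↔ _
  omega

/-! ### Combination -/

section comb

variable {V S X : Type} {σ : Sig}

/-- combination of injective maps with the same types, indexed by `A`, with the colours given by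
`N` for ascending pairs -/
def DdI (𝔸 : Str σ V) (c : V → V → S ⊕ X) (A : Type) (N : (A → X) → X) : Prop :=
  ∀ (W : Type) [Finite W] (rk : W → ℕ), Injective rk → ∀ (G : A → W → V) (tw : W → S),
    (∀ i, Injective (G i)) → (∀ i w, c (G i w) (G i w) = Sum.inl (tw w)) →
    ∃ ψ : W → V, Injective ψ ∧ Cx 𝔸 G ψ ∧ (∀ w, c (ψ w) (ψ w) = Sum.inl (tw w)) ∧
      ∀ (u w : W) (q : A → X), rk u < rk w →
        (∀ i, c (G i u) (G i w) = Sum.inr (q i)) → c (ψ u) (ψ w) = Sum.inr (N q)

theorem ddI_one {𝔸 : Str σ V} {c : V → V → S ⊕ X} {p : ℕ} {f : (ZMod p → X) → X}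
    (h : Dd 𝔸 c p f) : DdI 𝔸 c (ZMod p) f := by
  intro W _ rk hrk G tw hG ht
  obtain ⟨ψ, h1, h2, h3, h4⟩ := h.2 W rk hrk G hG fun i w => by rw [ht, ht]
  exact ⟨ψ, h1, h2, fun w => by rw [h3, ht], h4⟩

theorem f_shift {p : ℕ} [NeZero p] {f : (ZMod p → X) → X}
    (hf : ∀ q : ZMod p → X, f (fun i => q (i + 1)) = f q) (j : ZMod p) (q : ZMod p → X) :
    f (fun i => q (i + j)) = f q := by
  have h : ∀ (n : ℕ) (t : ZMod p → X), f (fun i => t (i + (n : ZMod p))) = f t := by
    intro n
    induction n with
    | zero => intro t; simp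
    | succ n ih =>
      intro t
      have h1 := ih (fun i => t (i + 1))
      rw [hf] at h1
      rw [← h1]
      congr 1
      funext i
      push_cast
      rw [add_assoc]
  have h1 := h j.val q
  rwa [ZMod.natCast_val, ZMod.cast_id] at h1

theorem ddI_fin {𝔸 : Str σ V} {c : V → V → S ⊕ X} {p : ℕ} [NeZero p] {f : (ZMod p → X) → X}
    (h : Dd 𝔸 c p f) (n : ℕ) : ∃ N : ((Fin n → ZMod p) → X) → X,
      DdI 𝔸 c (Fin n → ZMod p) N ∧
      ∀ (j : Fin n → ZMod p) (q : (Fin n → ZMod p) → X), N (fun J => q (fun i => J i + j i)) =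
        N q := by
  induction n with
  | zero =>
    refine ⟨fun q => q default, ?_, ?_⟩
    · intro W _ rk hrk G tw hG ht
      exact ⟨G default, hG _, fun l z hz => hz _, ht _, fun u w q _ hq => hq _⟩
    · intro j q
      simp only
      congr 1
      exact Subsingleton.elim _ _
  | succ n ih =>
    obtain ⟨N, hN, hr⟩ := ih
    refine ⟨fun q => f (fun j => N (fun J => q (Fin.cons j J))), ?_, ?_⟩
    · intro W _ rk hrk G tw hG ht
      have h1 := fun j : ZMod p => hN W rk hrk (fun J => G (Fin.cons j J)) tw
        (fun J => hG _) (fun J w => ht _ w)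
      choose ψ h2 h3 h4 h5 using h1
      obtain ⟨φ, h6, h7, h8, h9⟩ := ddI_one h W rk hrk ψ tw h2 h4
      refine ⟨φ, h6, ?_, h8, ?_⟩
      · intro l z hz
        exact h7 l z fun j => h3 j l z fun J => hz _
      · intro u w q huw hq
        refine h9 u w (fun j => N (fun J => q (Fin.cons j J))) huw fun j => ?_
        exact h5 j u w (fun J => q (Fin.cons j J)) huw fun J => hq _
    · intro j q
      have h1 : ∀ (a : ZMod p) (J : Fin n → ZMod p),
          (fun i => (Fin.cons a J : Fin (n + 1) → ZMod p) i + j i) =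
            Fin.cons (a + j 0) (fun i => J i + j i.succ) := by
        intro a J
        funext i
        refine Fin.cases ?_ (fun i => ?_) i
        · simp
        · simp
      have h2 : ∀ a : ZMod p, N (fun J => q (fun i =>
          (Fin.cons a J : Fin (n + 1) → ZMod p) i + j i)) =
          N (fun J => q (Fin.cons (a + j 0) J)) := by
        intro a
        simp only [h1]
        exact hr (fun i => j i.succ) (fun J => q (Fin.cons (a + j 0) J))
      simp only [h2]
      exact f_shift h.1 (j 0) (fun a => N (fun J => q (Fin.cons a J)))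

/-- combination with indices in a power of `ZMod p` -/
theorem ddI_all {𝔸 : Str σ V} {c : V → V → S ⊕ X} {p : ℕ} [NeZero p] {f : (ZMod p → X) → X}
    (h : Dd 𝔸 c p f) (I : Type) [Finite I] : ∃ N : ((I → ZMod p) → X) → X,
      DdI 𝔸 c (I → ZMod p) N ∧
      ∀ (j : I → ZMod p) (q : (I → ZMod p) → X), N (fun J => q (fun i => J i + j i)) =
        N q := by
  obtain ⟨n, ⟨e⟩⟩ := Finite.exists_equiv_fin I
  obtain ⟨N, hN, hr⟩ := ddI_fin h n
  refine ⟨fun q => N (fun J => q (fun i => J (e i))), ?_, ?_⟩
  · intro W _ rk hrk G tw hG ht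
    obtain ⟨ψ, h1, h2, h3, h4⟩ := hN W rk hrk (fun J => G (fun i => J (e i))) tw
      (fun J => hG _) (fun J w => ht _ w)
    refine ⟨ψ, h1, fun l z hz => h2 l z fun J => hz _, h3, ?_⟩
    intro u w q huw hq
    exact h4 u w (fun J => q (fun i => J (e i))) huw fun J => hq _
  · intro j q
    have h1 := hr (fun i => j (e.symm i)) (fun J => q (fun i => J (e i)))
    simp only at h1 ⊢
    rw [← h1]
    simp

end comb

/-! ### Members of families -/

/-- the bit of a position -/
def bitZ {p : ℕ} (q : Bool) (i : ZMod p) : Bool :=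
  q == decide (i.val < (p + 1) / 2)

/-- the value of an element of the template at a position -/
def slot {p : ℕ} {S X : Type} : Ec S X → ZMod p → (S ⊕ X) × Prop
  | Sum.inl s, _ => (Sum.inl s, False)
  | Sum.inr t, j => (Sum.inr (if bitZ t.2 j = true then t.1.1 else t.1.2), bitZ t.2 j = true)

/-- the members of a family given by the orders of an almost linear tournament -/
theorem fam_mem {V S X : Type} {σ : Sig} [LinearOrder V] {P : Pal S X} {𝔸 : Str σ V} {M : ℕ}
    {c : V → V → S ⊕ X} (hS : Stp P 𝔸 M c) {p : ℕ} (s : Option (Fin σ.m))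
    (hP : ∀ o : Fin (arP σ M s) → Fin (arP σ M s) → Prop,
      (∀ a b, a ≠ b → (o a b ↔ ¬ o b a)) → ∃ rk : ZMod p → Fin (arP σ M s) → ℕ,
        (∀ i, Function.Injective (rk i)) ∧ ∀ a b, a ≠ b → o a b →
          ∃ j : ZMod p, ∀ i : ZMod p, rk i a < rk i b ↔ (i - j).val < (p + 1) / 2)
    (q : Fin (arP σ M s) × Fin (arP σ M s) → Ec S X) (hq : FamP 𝔸 M c s q) :
    ∃ x : ZMod p → Fin (arP σ M s) → V, (∀ j, relP 𝔸 M s (x j)) ∧
      (∀ j a b, (∃ t, q (a, b) = Sum.inl t) ↔ x j a = x j b) ∧
      (∀ j a b, shp P (q (a, b)) = ((vt P c (x j a), vt P c (x j b)), decide (x j a = x j b))) ∧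
      ∀ a b, ∃ j₀ : ZMod p, ∀ j,
        ((c (x j a) (x j b), x j a < x j b) : (S ⊕ X) × Prop) = slot (q (a, b)) (j - j₀) := by
  classical
  have hc := hS.col
  obtain ⟨k, T, hT, hk, hs, hfam⟩ := hq
  obtain ⟨lb, hlb⟩ : ∃ lb : Fin (arP σ M s) → Fin (arP σ M s),
      lb = fun a => Classical.choose (⟨a, rfl⟩ : ∃ b, k b = k a) := ⟨_, rfl⟩
  have hkl : ∀ a, k (lb a) = k a := by
    intro a
    rw [hlb]
    exact Classical.choose_spec (⟨a, rfl⟩ : ∃ b, k b = k a)
  have hlk : ∀ a b, k a = k b → lb a = lb b := by
    intro a b h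
    rw [hlb]
    simp only [h]
  have hlk' : ∀ a b, lb a = lb b ↔ k a = k b :=
    fun a b => ⟨fun h => by rw [← hkl a, h, hkl], hlk a b⟩
  obtain ⟨rk, hinj, hrk⟩ := hP
    (fun a b => if k a ≠ k b then T (k a) (k b) = true else a < b) (by
      intro a b hab
      by_cases h : k a = k b
      · rw [if_neg (by simp [h]), if_neg (by simp [h])]
        constructor
        · intro h1
          exact not_lt.2 h1.le
        · intro h1
          exact lt_of_le_of_ne (not_lt.1 h1) hab
      · rw [if_pos h, if_pos (Ne.symm h)]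
        rw [hT _ _ h]
        cases T (k a) (k b) <;> simp)
  -- the members, with the actual order
  have hmem : ∀ j : ZMod p, ∃ x : Fin (arP σ M s) → V, relP 𝔸 M s x ∧
      (∀ a b, x a = x b ↔ k a = k b) ∧
      (∀ a b t, q (a, b) = Sum.inl t → c (x a) (x b) = Sum.inl t) ∧
      (∀ a b t, q (a, b) = Sum.inr t →
          c (x a) (x b) = Sum.inr (if rk j (lb a) < rk j (lb b) then t.1.1 else t.1.2)) ∧
      ∀ a b, x a < x b ↔ rk j (lb a) < rk j (lb b) := by
    intro j
    have hrkk : ∀ a b, rk j (lb a) = rk j (lb b) ↔ k a = k b := by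
      intro a b
      rw [← hlk' a b]
      exact ⟨fun h => hinj j h, fun h => by rw [h]⟩
    obtain ⟨x, h1, h2, h3, h4⟩ := hfam (fun a => rk j (lb a)) hrkk
    obtain ⟨y, hy⟩ := pf_REA σ V S X P 𝔸 M c hS (Fin (arP σ M s)) (fun a b => c (x a) (x b))
      (fun s' => ⟨fun a => x (s' a), fun a b => rfl⟩) (fun a => rk j (lb a)) (by
        intro a b
        rw [hrkk, ← h2, ← hc.eq_iff])
    have hyc : ∀ a b, c (y a) (y b) = c (x a) (x b) := fun a b => (hy a b).1
    refine ⟨y, relP_inv hS.tyi s x y h1 hyc, ?_, ?_, ?_, fun a b => (hy a b).2⟩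
    · intro a b
      rw [← h2, ← hc.eq_iff, hyc, hc.eq_iff]
    · intro a b t ht
      rw [hyc]
      exact h3 a b t ht
    · intro a b t ht
      rw [hyc]
      exact h4 a b t ht
  choose x hxR hxk hxi hxc hxo using hmem
  -- the types
  have hqd : ∀ a, ∃ t, q (a, a) = Sum.inl t := fun a => (hk a a).2 rfl
  choose ty hty using hqd
  have hvt : ∀ j a, vt P c (x j a) = ty a := fun j a => hc.vt_of (hxi j a a _ (hty a))
  have hshp : ∀ a b, shp P (q (a, b)) = ((ty a, ty b), decide (k a = k b)) := by
    intro a b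
    cases ht : q (a, b) with
    | inl t =>
      have h1 := (hk a b).1 ⟨t, ht⟩
      have h2 := hxi 0 a b t ht
      have h3 : x 0 a = x 0 b := hc.of_inl h2
      have h4 : ty a = t := by
        rw [← hvt 0 a]
        rw [← h3] at h2
        exact hc.vt_of h2
      have h5 : ty b = t := by
        rw [← hvt 0 b, ← h3, hvt, h4]
      change ((t, t), true) = _
      rw [h4, h5, decide_eq_true h1]
    | inr t =>
      have h1 : k a ≠ k b := by
        intro h
        obtain ⟨t', ht'⟩ := (hk a b).2 h
        rw [ht] at ht'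
        exact absurd ht' (by simp)
      obtain ⟨y, h2, h3, h4, h5⟩ := hfam (fun v => if k v = k a then 0 else k v + 1) (by
        intro u v
        by_cases hu : k u = k a
        · by_cases hv : k v = k a
          · rw [if_pos hu, if_pos hv, hu, hv]
            exact ⟨fun _ => rfl, fun _ => rfl⟩
          · rw [if_pos hu, if_neg hv]
            omega
        · by_cases hv : k v = k a
          · rw [if_neg hu, if_pos hv]
            omega
          · rw [if_neg hu, if_neg hv]
            omega)
      have h6 := h5 a b t ht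
      rw [if_pos (by rw [if_pos rfl, if_neg (Ne.symm h1)]; omega)] at h6
      have h7 := hc.vt_left h6
      have h8 := hc.vt_right h6
      rw [hc.vt_of (h4 a a _ (hty a))] at h7
      rw [hc.vt_of (h4 b b _ (hty b))] at h8
      change ((P.ls t.1.1, P.rs t.1.1), false) = _
      rw [h7, h8, decide_eq_false h1]
  refine ⟨x, hxR, ?_, ?_, ?_⟩
  · intro j a b
    rw [hk, hxk]
  · intro j a b
    rw [hshp, hvt, hvt]
    congr 1
    rw [decide_eq_decide, hxk]
  · intro a b
    cases ht : q (a, b) with
    | inl t =>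
      refine ⟨0, fun j => ?_⟩
      have h1 := (hk a b).1 ⟨t, ht⟩
      have h2 := hxi j a b t ht
      have h3 : x j a = x j b := hc.of_inl h2
      change _ = (Sum.inl t, False)
      rw [h2, h3]
      simp
    | inr t =>
      have h1 : k a ≠ k b := by
        intro h
        obtain ⟨t', ht'⟩ := (hk a b).2 h
        rw [ht] at ht'
        exact absurd ht' (by simp)
      have hlab : lb a ≠ lb b := fun h => h1 ((hlk' a b).1 h)
      have hsg : t.2 = T (k a) (k b) := hs a b t ht
      have key : ∃ j₀ : ZMod p, ∀ j, (rk j (lb a) < rk j (lb b)) ↔ bitZ t.2 (j - j₀) = true := by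
        by_cases hoab : T (k a) (k b) = true
        · obtain ⟨j, hj⟩ := hrk (lb a) (lb b) hlab (by
            rw [if_pos (by rwa [hkl, hkl]), hkl, hkl]
            exact hoab)
          refine ⟨j, fun i => ?_⟩
          rw [hj i, hsg, hoab]
          simp [bitZ]
        · have hoba : T (k b) (k a) = true := by
            rw [hT _ _ h1]
            simpa using hoab
          obtain ⟨j, hj⟩ := hrk (lb b) (lb a) hlab.symm (by
            rw [if_pos (by rw [hkl, hkl]; exact h1.symm), hkl, hkl]
            exact hoba)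
          refine ⟨j, fun i => ?_⟩
          have h3 : rk i (lb a) < rk i (lb b) ↔ ¬ (i - j).val < (p + 1) / 2 := by
            rw [← hj i, not_lt]
            exact ⟨fun h => h.le, fun h => lt_of_le_of_ne h (fun h' => hlab (hinj i h'))⟩
          rw [h3, hsg]
          simp only [Bool.not_eq_true] at hoab
          rw [hoab]
          simp [bitZ]
      obtain ⟨j₀, hj₀⟩ := key
      refine ⟨j₀, fun j => ?_⟩
      change _ = (Sum.inr (if bitZ t.2 (j - j₀) = true then t.1.1 else t.1.2),
        bitZ t.2 (j - j₀) = true)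
      rw [hxc j a b t ht]
      have h2 : (x j a < x j b) = (bitZ t.2 (j - j₀) = true) := propext ((hxo j a b).trans (hj₀ j))
      rw [h2]
      congr 2
      by_cases h3 : bitZ t.2 (j - j₀) = true
      · rw [if_pos h3, if_pos ((hj₀ j).2 h3)]
      · rw [if_neg h3, if_neg (fun h => h3 ((hj₀ j).1 h))]

/-- from linear orders to tournaments -/
theorem pf_TOF : T_TOF := by
  intro σ V S X _ P 𝔸 M c hS hDD I _ τ κ Φ Ω hG
  classical
  have hc := hS.col
  choose P₀ hP₀ using Pool.Agent.H49.EQ.pf_ALW
  obtain ⟨N₁, hN₁⟩ := hDD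
  obtain ⟨p, hp1, hp2⟩ := Nat.exists_infinite_primes
    (N₁ + 3 + ∑ s : Option (Fin σ.m), P₀ (arP σ M s))
  have hodd : Odd p := hp2.odd_of_ne_two (by omega)
  have : NeZero p := ⟨hp2.ne_zero⟩
  have hPs : ∀ s : Option (Fin σ.m), P₀ (arP σ M s) ≤ p := fun s => by
    have h1 := Finset.single_le_sum (f := fun s => P₀ (arP σ M s)) (fun _ _ => Nat.zero_le _)
      (Finset.mem_univ s)
    omega
  obtain ⟨f, hf⟩ := hN₁ p hp2 (by omega)
  obtain ⟨N, hN, hr⟩ := ddI_all hf I
  have hcard : Odd (Nat.card (I → ZMod p)) := by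
    have := Fintype.ofFinite I
    rw [Nat.card_eq_fintype_card, Fintype.card_fun, ZMod.card]
    exact hodd.pow
  let Φ' : (I → Ec S X) → (I → ZMod p) → X := fun z J => Φ fun i => slot (z i) (J i)
  let Ω' : (I → Ec S X) → (I → ZMod p) → Bool := fun z J => decide (Ω fun i => slot (z i) (J i))
  let E : (I → Ec S X) → Prop := fun z => κ (zL P z) (zR P z) (zA P z)
  let F : (I → Ec S X) → Ec S X := fun z => if E z then Sum.inl (τ (zL P z))
    else Sum.inr ((N (Φ' z), P.rv (N (fun J => P.rv (Φ' z J)))), majG (Ω' z))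
  have hFin : ∀ z, E z → F z = Sum.inl (τ (zL P z)) := fun z h => if_pos h
  have hFout : ∀ z, ¬ E z → F z =
      Sum.inr ((N (Φ' z), P.rv (N (fun J => P.rv (Φ' z J)))), majG (Ω' z)) := fun z h => if_neg h
  refine ⟨F, ?_, ?_, ?_⟩
  · -- polymorphism
    refine (poly_strOn _ _ _).2 ?_
    intro s q hq
    have hx := fun i => fam_mem hS s (hP₀ (arP σ M s) p (hPs s) hodd) (q i) (hq i)
    choose x hxR hxk hxs hxj using hx
    -- the values
    have hy := fun J : I → ZMod p => hG (Fin (arP σ M s)) (fun i => x i (J i))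
    choose ψ hψC hψt hψc using hy
    have hzL : ∀ (J : I → ZMod p) a b, zL P (fun i => q i (a, b)) =
        fun i => vt P c (x i (J i) a) := by
      intro J a b
      funext i
      change (shp P (q i (a, b))).1.1 = _
      rw [hxs i (J i) a b]
    have hzR : ∀ (J : I → ZMod p) a b, zR P (fun i => q i (a, b)) =
        fun i => vt P c (x i (J i) b) := by
      intro J a b
      funext i
      change (shp P (q i (a, b))).1.2 = _
      rw [hxs i (J i) a b]
    have hzA : ∀ (J : I → ZMod p) a b, zA P (fun i => q i (a, b)) =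
        {i | x i (J i) a = x i (J i) b} := by
      intro J a b
      ext i
      change (shp P (q i (a, b))).2 = true ↔ x i (J i) a = x i (J i) b
      rw [hxs i (J i) a b]
      simp
    have hE : ∀ (J : I → ZMod p) a b, ψ J a = ψ J b ↔ E (fun i => q i (a, b)) := by
      intro J a b
      rw [(hψc J a b).1]
      change _ ↔ κ (zL P (fun i => q i (a, b))) (zR P (fun i => q i (a, b)))
        (zA P (fun i => q i (a, b)))
      rw [hzL J, hzR J, hzA J]
    have hty : ∀ (J : I → ZMod p) a b,
        c (ψ J a) (ψ J a) = Sum.inl (τ (zL P (fun i => q i (a, b)))) := by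
      intro J a b
      rw [hc.diag, hψt, hzL J]
    have hcol : ∀ a b, ¬ E (fun i => q i (a, b)) → ∃ j₀ : I → ZMod p, ∀ J : I → ZMod p,
        c (ψ J a) (ψ J b) = Sum.inr (Φ' (fun i => q i (a, b)) (fun i => J i + j₀ i)) ∧
        decide (ψ J a < ψ J b) = Ω' (fun i => q i (a, b)) (fun i => J i + j₀ i) := by
      intro a b h
      have h1 := fun i => hxj i a b
      choose j₀ hj₀ using h1
      refine ⟨fun i => - j₀ i, fun J => ?_⟩
      obtain ⟨h2, h3⟩ := (hψc J a b).2 fun h' => h ((hE J a b).1 h')
      have h4 : (fun i => (c (x i (J i) a) (x i (J i) b), x i (J i) a < x i (J i) b)) =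
          fun i => slot (q i (a, b)) (J i + - j₀ i) := by
        funext i
        rw [hj₀ i (J i), sub_eq_add_neg]
      rw [h4] at h2 h3
      exact ⟨h2, decide_eq_decide.2 h3⟩
    -- the labels
    obtain ⟨k, hk⟩ : ∃ k : Fin (arP σ M s) → ℕ, ∀ a b, k a = k b ↔ ψ 0 a = ψ 0 b := by
      refine ⟨fun a => (Classical.choose (⟨a, rfl⟩ : ∃ b, ψ 0 b = ψ 0 a) : Fin _), fun a b => ?_⟩
      constructor
      · intro h
        have h1 := Classical.choose_spec (⟨a, rfl⟩ : ∃ b, ψ 0 b = ψ 0 a)
        have h2 := Classical.choose_spec (⟨b, rfl⟩ : ∃ b', ψ 0 b' = ψ 0 b)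
        rw [← h1, ← h2]
        exact congrArg (ψ 0) (Fin.ext h)
      · intro h
        simp only [h]
    have hkE : ∀ a b, k a = k b ↔ E (fun i => q i (a, b)) := fun a b => (hk a b).trans (hE 0 a b)
    have hkJ : ∀ J a b, ψ J a = ψ J b ↔ k a = k b := fun J a b => (hE J a b).trans (hkE a b).symm
    have hEd : ∀ a, E (fun i => q i (a, a)) := fun a => (hkE a a).1 rfl
    obtain ⟨v₀⟩ := hS.ne
    let lab : (I → ZMod p) → ℕ → V := fun J v =>
      if h : ∃ a, k a = v then ψ J (Classical.choose h) else v₀
    have hlab : ∀ J a, lab J (k a) = ψ J a := by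
      intro J a
      have h : ∃ b, k b = k a := ⟨a, rfl⟩
      have h1 : lab J (k a) = ψ J (Classical.choose h) := dif_pos h
      rw [h1]
      exact (hkJ J _ _).2 (Classical.choose_spec h)
    let T' : ℕ → ℕ → Bool := fun v v' =>
      if (∃ a, k a = v) ∧ (∃ a, k a = v') then majG (fun J => decide (lab J v < lab J v'))
      else decide (v < v')
    have hT' : ∀ a b, T' (k a) (k b) = majG (fun J => decide (ψ J a < ψ J b)) := by
      intro a b
      change (if _ then _ else _) = _
      rw [if_pos ⟨⟨a, rfl⟩, ⟨b, rfl⟩⟩]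
      simp only [hlab]
    refine ⟨k, T', ?_, ?_, ?_, ?_⟩
    · intro v v' hne
      by_cases h : (∃ a, k a = v) ∧ (∃ a, k a = v')
      · obtain ⟨⟨a, rfl⟩, ⟨b, rfl⟩⟩ := h
        rw [hT', hT', ← majG_not hcard]
        congr 1
        funext J
        rw [← decide_not, decide_eq_decide, not_lt]
        exact ⟨fun h => h.le, fun h => lt_of_le_of_ne h
          (fun h' => hne ((hkJ J a b).1 h'.symm))⟩
      · have h' : ¬ ((∃ a, k a = v') ∧ (∃ a, k a = v)) := fun h' => h ⟨h'.2, h'.1⟩
        change (if _ then _ else _) = !(if _ then _ else _)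
        rw [if_neg h, if_neg h', ← decide_not, decide_eq_decide, not_lt]
        exact ⟨fun h => h.le, fun h => lt_of_le_of_ne h (Ne.symm hne)⟩
    · intro a b
      rw [hkE]
      change (∃ t, F (fun i => q i (a, b)) = Sum.inl t) ↔ _
      by_cases h : E (fun i => q i (a, b))
      · rw [hFin _ h]
        exact ⟨fun _ => h, fun _ => ⟨_, rfl⟩⟩
      · rw [hFout _ h]
        exact ⟨fun ⟨t, h'⟩ => absurd h' (by simp), fun h' => absurd h' h⟩
    · intro a b t ht
      change F (fun i => q i (a, b)) = Sum.inr t at ht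
      by_cases h : E (fun i => q i (a, b))
      · rw [hFin _ h] at ht
        exact absurd ht (by simp)
      · rw [hFout _ h] at ht
        obtain ⟨j₀, hj₀⟩ := hcol a b h
        rw [← Sum.inr_injective ht, hT']
        change majG (Ω' (fun i => q i (a, b))) = _
        have h1 : (fun J => decide (ψ J a < ψ J b)) =
            fun J => Ω' (fun i => q i (a, b)) (Equiv.addRight j₀ J) := by
          funext J
          exact (hj₀ J).2
        rw [h1, majG_equiv]
    · intro rk hrk
      -- the domain
      let W : Type := Set.range k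
      let pr : Fin (arP σ M s) → W := fun a => ⟨k a, a, rfl⟩
      have hpr : ∀ w : W, ∃ a, w = pr a := by
        rintro ⟨v, a, rfl⟩
        exact ⟨a, rfl⟩
      let Gm : (I → ZMod p) → W → V := fun J w => ψ J (Classical.choose w.2)
      have hGm : ∀ J a, Gm J (pr a) = ψ J a := by
        intro J a
        have h1 : k (Classical.choose (pr a).2) = k a := Classical.choose_spec (pr a).2
        exact (hkJ J _ _).2 h1
      have hGi : ∀ J, Injective (Gm J) := by
        intro J w w' h
        obtain ⟨a, rfl⟩ := hpr w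
        obtain ⟨b, rfl⟩ := hpr w'
        rw [hGm, hGm] at h
        exact Subtype.ext ((hkJ J _ _).1 h)
      let tw : W → S := fun w => vt P c (Gm 0 w)
      have htw : ∀ a, tw (pr a) = τ (zL P (fun i => q i (a, a))) := by
        intro a
        change vt P c (Gm 0 (pr a)) = _
        rw [hGm]
        exact hc.vt_of (hty 0 a a)
      have hGt : ∀ J w, c (Gm J w) (Gm J w) = Sum.inl (tw w) := by
        intro J w
        obtain ⟨a, rfl⟩ := hpr w
        rw [hGm, htw]
        exact hty J a a
      let rkW : W → ℕ := fun w => rk (Classical.choose w.2)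
      have hrkW : ∀ a, rkW (pr a) = rk a := by
        intro a
        have h1 : k (Classical.choose (pr a).2) = k a := Classical.choose_spec (pr a).2
        exact (hrk _ _).2 h1
      have hrkI : Injective rkW := by
        intro w w' h
        obtain ⟨a, rfl⟩ := hpr w
        obtain ⟨b, rfl⟩ := hpr w'
        rw [hrkW, hrkW] at h
        exact Subtype.ext ((hrk _ _).1 h)
      obtain ⟨φ, hφi, hφC, hφt, hφc⟩ := hN W rkW hrkI Gm tw hGi hGt
      refine ⟨fun a => φ (pr a), ?_, ?_, ?_, ?_⟩
      · refine relP_cx hφC s pr ?_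
        intro J
        simp only [hGm]
        exact relP_cx (hψC J) s (fun a => a) fun i => hxR i (J i)
      · intro a b
        constructor
        · intro h
          exact congrArg Subtype.val (hφi h)
        · intro h
          have : pr a = pr b := Subtype.ext h
          change φ (pr a) = φ (pr b)
          rw [this]
      · intro a b t ht
        change F (fun i => q i (a, b)) = Sum.inl t at ht
        by_cases h : E (fun i => q i (a, b))
        · rw [hFin _ h] at ht
          have htt := Sum.inl_injective ht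
          have hpe : pr b = pr a := Subtype.ext ((hkE a b).2 h).symm
          change c (φ (pr a)) (φ (pr b)) = _
          rw [hpe, hφt, htw, ← htt, hzL 0 a a, hzL 0 a b]
        · rw [hFout _ h] at ht
          exact absurd ht (by simp)
      · intro a b t ht
        change F (fun i => q i (a, b)) = Sum.inr t at ht
        by_cases h : E (fun i => q i (a, b))
        · rw [hFin _ h] at ht
          exact absurd ht (by simp)
        · rw [hFout _ h] at ht
          have htt := Sum.inr_injective ht
          obtain ⟨j₀, hj₀⟩ := hcol a b h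
          have hne : rk a ≠ rk b := fun h' => h ((hkE a b).1 ((hrk a b).1 h'))
          rcases lt_or_gt_of_ne hne with hlt | hgt
          · rw [if_pos hlt, ← htt]
            change _ = Sum.inr (N (Φ' fun i => q i (a, b)))
            rw [← hr j₀ (Φ' fun i => q i (a, b))]
            refine hφc (pr a) (pr b) _ (by rw [hrkW, hrkW]; exact hlt) ?_
            intro J
            rw [hGm, hGm]
            exact (hj₀ J).1
          · have hnlt : ¬ rk a < rk b := not_lt.2 hgt.le
            rw [if_neg hnlt, ← htt]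
            change _ = Sum.inr (P.rv (N (fun J => P.rv (Φ' (fun i => q i (a, b)) J))))
            rw [← hr j₀ (fun J => P.rv (Φ' (fun i => q i (a, b)) J))]
            refine hc.swap _ _ _ (hφc (pr b) (pr a) _ (by rw [hrkW, hrkW]; exact hgt) ?_)
            intro J
            rw [hGm, hGm]
            exact hc.swap _ _ _ (hj₀ J).1
  · intro z
    by_cases h : E z
    · rw [hFin z h]
      exact ⟨fun _ => h, fun _ => ⟨_, rfl⟩⟩
    · rw [hFout z h]
      exact ⟨fun ⟨t, h'⟩ => absurd h' (by simp), fun h' => absurd h' h⟩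
  · intro z s h
    by_cases hz : E z
    · rw [hFin z hz] at h
      exact (Sum.inl_injective h).symm
    · rw [hFout z hz] at h
      exact absurd h (by simp)

end Pool.Agent.H57.SO
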