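import Pool.Agent.H57.SO.Targets
import Pool.Agent.H57.EQ.Asm

/-!
# Several orbits of vertices: assembly
-/

set_option autoImplicit false

namespace Pool.Agent.H57.SO

open Pool.Agent.H68.BP Pool.Agent.H58.SF Pool.Agent.H53.GC Pool.Agent.H53.NR
open Pool.Agent.H57.EQ (Cx Tour T_CYC T_NKC)
open Function

/-- an Olšák polymorphism of the template of the fibres -/
theorem asm_olsak (hCOR : T_COR) (hOMG : T_OMG) (hFIN : T_FIN) (hOLF : T_OLF) (hGEO : T_GEO)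
    (hMXV : T_MXV) (hMXP : T_MXP) (hLIM : T_LIM) (hCA2 : T_CA2) (hNR3 : T_NR3) (hCPS : T_CPS)
    {σ : Sig} {V S X : Type} [LinearOrder V] [Finite S] {P : Pal S X} {𝔸 : Str σ V} {M : ℕ}
    {c : V → V → S ⊕ X} (hs : Stp P 𝔸 M c) {h : (Fin 6 → V) → (Fin 6 → V) → X}
    (hh : GoodMap (fib 𝔸 M c) M (cD P c) h) :
    HasOlsak (template (fib 𝔸 M c) M (cD P c)) (template (fib 𝔸 M c) M (cD P c)) := by
  have hS := hCPS σ V S X P 𝔸 M c hs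
  have := hS.fin
  obtain ⟨v⟩ := hs.ne
  have hX : Nonempty X := ⟨cD P c v v⟩
  obtain ⟨h', hh', ht⟩ := hCA2 _ V X (fib 𝔸 M c) M (cD P c) hS.fin (hNR3 V X _ _ M hS.univ)
    hS.split h hh
  refine hLIM _ V X (fib 𝔸 M c) M (cD P c) hS.fin hX fun k => ?_
  exact hOLF _ _ _ _ (no_selects hCOR hOMG hFIN
    (hGEO _ V X (fib 𝔸 M c) M (cD P c) _ _ k hS.two hS.typed)
    (hMXV _ V X (fib 𝔸 M c) M (cD P c) _ _ _ h' hS hh' ht k)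
    (hMXP _ V X (fib 𝔸 M c) M (cD P c) _ _ _ h' hS hh' ht k))

/-- cyclic functions for all large primes -/
theorem asm_dd
    (hOLI : ∀ (σ : Sig) (V S X : Type) [LinearOrder V] [Finite S] (P : Pal S X) (𝔸 : Str σ V)
      (M : ℕ) (c : V → V → S ⊕ X), Stp P 𝔸 M c → ∀ h, GoodMap (fib 𝔸 M c) M (cD P c) h →
      HasOlsak (template (fib 𝔸 M c) M (cD P c)) (template (fib 𝔸 M c) M (cD P c)))
    (hBKS : T_BKS) (hBKG : T_BKG) (hCYC : T_CYC) (hDDX : T_DDX)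
    {σ : Sig} {V S X : Type} [LinearOrder V] {P : Pal S X} {𝔸 : Str σ V} {M : ℕ}
    {c : V → V → S ⊕ X} (hs : Stp P 𝔸 M c) {h : (Fin 6 → V) → (Fin 6 → V) → S ⊕ X}
    (hh : Core P 𝔸 c h) : DdAll 𝔸 c := by
  have := hs.finX
  have := hs.finS
  obtain ⟨h', hb⟩ := hBKS σ V S X P 𝔸 M c hs h hh
  have hO := hOLI σ V S X P 𝔸 M c hs _ (hBKG σ V S X P 𝔸 M c hs h h' hh hb)
  refine ⟨Nat.card (X × Bool), fun p hp hN => ?_⟩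
  obtain ⟨H, h1, h2⟩ := hCYC _ _ _ hO p hp hN
  exact ⟨_, hDDX σ V S X P 𝔸 M c hs p H h1 h2⟩

/-- The template of a core does not pp-construct `K₃`. -/
theorem asm_tpl
    (hDD : ∀ (σ : Sig) (V S X : Type) [LinearOrder V] (P : Pal S X) (𝔸 : Str σ V)
      (M : ℕ) (c : V → V → S ⊕ X), Stp P 𝔸 M c → ∀ h, Core P 𝔸 c h → DdAll 𝔸 c)
    (hSRT : T_SRT) (hKER : T_KER) (hINJ2 : T_INJ2) (hBHI : T_BHI) (hCYB : T_CYB) (hCAB : T_CAB)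
    (hTOF : T_TOF) (hCYP : T_CYP) (hNKC : T_NKC)
    {σ : Sig} {V S X : Type} [LinearOrder V] {P : Pal S X} {𝔸 : Str σ V} {M : ℕ}
    {c : V → V → S ⊕ X} (hs : Stp P 𝔸 M c) {h : (Fin 6 → V) → (Fin 6 → V) → S ⊕ X}
    (hh : Core P 𝔸 c h) : ¬ PPConstructsK3 (tpl 𝔸 M c) := by
  have hD : DdAll 𝔸 c := hDD σ V S X P 𝔸 M c hs h hh
  obtain ⟨N₁, hN₁⟩ := id hD
  obtain ⟨N₂, hN₂⟩ := hSRT σ V S X P 𝔸 M c hs h hh
  obtain ⟨p, hp1, hp2⟩ := Nat.exists_infinite_primes (N₁ + N₂ + 3)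
  obtain ⟨f, hf⟩ := hN₁ p hp2 (by omega)
  obtain ⟨τ, hτ, hτc⟩ := hN₂ p hp2 (by omega)
  have : NeZero p := ⟨hp2.ne_zero⟩
  obtain ⟨κ, hκ⟩ := hKER σ V S X P 𝔸 M c hs (ZMod p) τ hτ
  obtain ⟨κ', hκ', hκc⟩ := hCYB σ V S X P 𝔸 M c hs
    (hBHI σ V S X P 𝔸 M c hs (hINJ2 σ V S X P 𝔸 M c hs h hh)) p hp2 τ κ hκ hτc
  obtain ⟨Φ, Ω, hG⟩ := hCAB σ V S X P 𝔸 M c hs (ZMod p) τ κ' hκ'
  obtain ⟨F, hF⟩ := hTOF σ V S X P 𝔸 M c hs hD (ZMod p) τ κ' Φ Ω hG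
  obtain ⟨u, hu1, hu2⟩ := hCYP σ V S X P 𝔸 M c hs p f hp2 (by omega) hf τ κ' F hF hτc hκc
  exact hNKC _ _ _ p u hp2 hu1 hu2

/-- The theorem for coloured linear orders. -/
theorem asm_all (hPA : T_PA) (hRED : T_RED)
    (hTPL : ∀ (σ : Sig) (V S X : Type) [LinearOrder V] (P : Pal S X) (𝔸 : Str σ V)
      (M : ℕ) (c : V → V → S ⊕ X), Stp P 𝔸 M c → ∀ h, Core P 𝔸 c h →
      ¬ PPConstructsK3 (tpl 𝔸 M c))
    {σ : Sig} {V S X : Type} [LinearOrder V] {P : Pal S X} {𝔸 : Str σ V} {M : ℕ}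
    {c : V → V → S ⊕ X} (hs : Stp P 𝔸 M c) (hol : Oligo 𝔸) :
    PPConstructsK3 𝔸 ∨ ∃ (σ' : Sig) (Y : Type) (_ : Finite Y) (𝕋 : Str σ' Y),
      ¬ PPConstructsK3 𝕋 ∧ N793a5b8e.ManyOneReducible (CSP 𝔸) (CSP 𝕋) := by
  by_cases hK : PPConstructsK3 𝔸
  · exact Or.inl hK
  obtain ⟨V', S', X', lo, P', 𝔸', M', c', h', hs', hh', hom⟩ :=
    hPA σ V S X P 𝔸 M c hs hol hK
  have := hs'.finS
  have := hs'.finX
  refine Or.inr ⟨_, Ec S' X', inferInstance, tpl 𝔸' M' c',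
    hTPL σ V' S' X' P' 𝔸' M' c' hs' h' hh', ?_⟩
  have h1 : CSP 𝔸 = CSP 𝔸' := by
    funext w
    unfold CSP
    refine decide_eq_decide.2 ?_
    constructor
    · rintro ⟨n, L, h1, h2, h3⟩
      exact ⟨n, L, h1, h2, (hom n _).2 h3⟩
    · rintro ⟨n, L, h1, h2, h3⟩
      exact ⟨n, L, h1, h2, (hom n _).1 h3⟩
  rw [h1]
  exact hRED σ V' S' X' P' 𝔸' M' c' hs'

end Pool.Agent.H57.SO
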