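import Pool.Agent.H57.EQD.Defs

/-!
# Several orbits of vertices: definitions

`c x y` is the type of the pair `(x, y)`: it is `inl s` if `x = y` is an element of type `s`, and
`inr t` if `x` and `y` are different and the pair has the colour `t`.
-/

set_option autoImplicit false

namespace Pool.Agent.H57.SO

open Pool.Agent.H68.BP Pool.Agent.H58.SF Pool.Agent.H53.GC
open Pool.Agent.H57.EQ (Cx Tour)
open Function

/-- The types of elements `S` and the colours of pairs of different elements `X`: `ls t` and `rs t`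
are the types of the two elements of a pair of colour `t`, `rv t` is the colour of the reversed pair,
and `fr s t` is the free colour of pairs of elements of types `s` and `t`. -/
structure Pal (S X : Type) where
  ls : X → S
  rs : X → S
  rv : X → X
  fr : S → S → X
  ls_fr : ∀ s t, ls (fr s t) = s
  rs_fr : ∀ s t, rs (fr s t) = t
  rv_fr : ∀ s t, rv (fr s t) = fr t s

section defs

variable {V S X Z : Type} {σ : Sig}

/-- `c` is a colouring with the palette `P`, and all types and colours occur. -/
structure Col (P : Pal S X) (c : V → V → S ⊕ X) : Prop where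
  eq_iff : ∀ x y, (∃ s, c x y = Sum.inl s) ↔ x = y
  left : ∀ x y t, c x y = Sum.inr t → c x x = Sum.inl (P.ls t)
  right : ∀ x y t, c x y = Sum.inr t → c y y = Sum.inl (P.rs t)
  swap : ∀ x y t, c x y = Sum.inr t → c y x = Sum.inr (P.rv t)
  surS : ∀ s, ∃ x, c x x = Sum.inl s
  surX : ∀ t, ∃ x y, c x y = Sum.inr t

/-- Universality: each finite linear order with types of elements and colours of pairs embeds into
`(V, <, c)` provided that every set of at most `M` of its elements without free pairs is realized. -/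
def Uni [LinearOrder V] (P : Pal S X) (c : V → V → S ⊕ X) (M : ℕ) : Prop :=
  ∀ (n : ℕ) (t : Fin n → S) (d : Fin n → Fin n → X),
    (∀ (m : ℕ) (s : Fin m → Fin n), m ≤ M → StrictMono s →
      (∀ i j, i < j → d (s i) (s j) ≠ P.fr (t (s i)) (t (s j))) →
      ∃ v : Fin m → V, (∀ i, c (v i) (v i) = Sum.inl (t (s i))) ∧
        ∀ i j, i < j → c (v i) (v j) = Sum.inr (d (s i) (s j))) →
    ∃ f : Fin n → V, StrictMono f ∧ (∀ i, c (f i) (f i) = Sum.inl (t i)) ∧
      ∀ i j, i < j → c (f i) (f j) = Sum.inr (d i j)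

/-- The relations of `𝔸` depend only on the types. -/
def TyInv (𝔸 : Str σ V) (c : V → V → Z) : Prop :=
  ∀ (l : Fin σ.m) (x y : Fin (σ.ar l) → V), 𝔸 l x → (∀ a b, c (y a) (y b) = c (x a) (x b)) → 𝔸 l y

/-- the hypotheses -/
structure Stp [LinearOrder V] (P : Pal S X) (𝔸 : Str σ V) (M : ℕ) (c : V → V → S ⊕ X) :
    Prop where
  finS : Finite S
  finX : Finite X
  ne : Nonempty V
  cnt : Countable V
  three : 3 ≤ M
  col : Col P c
  uni : Uni P c M
  tyi : TyInv 𝔸 c

/-- the type of an element -/
def vt (P : Pal S X) (c : V → V → S ⊕ X) (x : V) : S := Sum.elim id P.ls (c x x)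

/-- `x` and `y` have the same type in `(V, <, c)`. -/
def Same [LinearOrder V] (c : V → V → Z) {I : Type} (x y : I → V) : Prop :=
  ∀ i j, (x i < x j ↔ y i < y j) ∧ c (x i) (x j) = c (y i) (y j)

/-- `h` gives the types of the pairs of values of a map from the power of `V` to `V` which is
canonical and preserves `𝔸`. -/
structure Can [LinearOrder V] (𝔸 : Str σ V) (c : V → V → S ⊕ X) (I : Type)
    (h : (I → V) → (I → V) → S ⊕ X) : Prop where
  tinv : ∀ v w v' w' : I → V, Same c (Sum.elim v w) (Sum.elim v' w') → h v w = h v' w'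
  comb : ∀ (W : Type) [Finite W] (G : I → W → V), ∃ ψ : W → V, Cx 𝔸 G ψ ∧
    ∀ u w, c (ψ u) (ψ w) = h (fun i => G i u) (fun i => G i w)

/-- the identities of an Olšák function -/
def Exa (h : (Fin 6 → V) → (Fin 6 → V) → Z) : Prop :=
  ∀ (r : Fin 3) (x y x' y' : V), h (pat r x y) (pat r x' y') = h (pat 0 x y) (pat 0 x' y')

/-- `γ` is the action on types of unary maps which preserve `𝔸`. -/
def Sb (𝔸 : Str σ V) (c : V → V → S ⊕ X) (γ : S → S) : Prop :=
  ∀ (W : Type) [Finite W] (G : W → V), ∃ ψ : W → V, Cx 𝔸 (fun _ : Unit => G) ψ ∧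
    ∀ w s, c (G w) (G w) = Sum.inl s → c (ψ w) (ψ w) = Sum.inl (γ s)

/-- `z` is a block of elements of type `s`, whose different elements are free from each other. -/
def FBl (P : Pal S X) (c : V → V → S ⊕ X) {I : Type} (s : S) (z : I → V) : Prop :=
  (∀ l, c (z l) (z l) = Sum.inl s) ∧ ∀ l l', z l ≠ z l' → c (z l) (z l') = Sum.inr (P.fr s s)

/-- The hypotheses on the canonical Olšák function: all the actions of unary maps on the types are
permutations, the values on blocks of elements of type `s` have type `s`, and blocks without common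
elements are not identified. -/
structure Core [LinearOrder V] (P : Pal S X) (𝔸 : Str σ V) (c : V → V → S ⊕ X)
    (h : (Fin 6 → V) → (Fin 6 → V) → S ⊕ X) : Prop where
  can : Can 𝔸 c (Fin 6) h
  exact : Exa h
  perm : ∀ γ : S → S, Sb 𝔸 c γ → Bijective γ
  idem : ∀ (s : S) (z : Fin 6 → V), FBl P c s z → h z z = Sum.inl s
  ncol : ∀ (s : S) (z z' : Fin 6 → V), FBl P c s z → FBl P c s z' → (∀ l l', z l ≠ z' l') →
    ∀ s', h z z' ≠ Sum.inl s'

/-! ### Behaviours -/

/-- There are `I`-ary maps preserving `𝔸` whose action on the types of elements is `τ`. -/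
def Sbn (P : Pal S X) (𝔸 : Str σ V) (c : V → V → S ⊕ X) {I : Type} (τ : (I → S) → S) : Prop :=
  ∀ (W : Type) [Finite W] (G : I → W → V), ∃ ψ : W → V, Cx 𝔸 G ψ ∧
    ∀ w, vt P c (ψ w) = τ (fun i => vt P c (G i w))

/-- There are `I`-ary maps preserving `𝔸` whose action on the types of elements is `τ`, and the
equalities of their values are given by `κ`, from the types of the arguments and the set of the
coordinates where the arguments agree. -/
def Bh (P : Pal S X) (𝔸 : Str σ V) (c : V → V → S ⊕ X) {I : Type} (τ : (I → S) → S)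
    (κ : (I → S) → (I → S) → Set I → Prop) : Prop :=
  ∀ (W : Type) [Finite W] (G : I → W → V), ∃ ψ : W → V, Cx 𝔸 G ψ ∧
    (∀ w, vt P c (ψ w) = τ (fun i => vt P c (G i w))) ∧
    ∀ u w, ψ u = ψ w ↔ κ (fun i => vt P c (G i u)) (fun i => vt P c (G i w))
      {i | G i u = G i w}

/-- The same, where in addition the colours and the order of the values are given by `Φ` and `Ω`,
from the types and the order of the pairs of arguments in all coordinates. -/
def Gm [LinearOrder V] (P : Pal S X) (𝔸 : Str σ V) (c : V → V → S ⊕ X) {I : Type}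
    (τ : (I → S) → S) (κ : (I → S) → (I → S) → Set I → Prop)
    (Φ : (I → (S ⊕ X) × Prop) → X) (Ω : (I → (S ⊕ X) × Prop) → Prop) : Prop :=
  ∀ (W : Type) [Finite W] (G : I → W → V), ∃ ψ : W → V, Cx 𝔸 G ψ ∧
    (∀ w, vt P c (ψ w) = τ (fun i => vt P c (G i w))) ∧
    ∀ u w, (ψ u = ψ w ↔ κ (fun i => vt P c (G i u)) (fun i => vt P c (G i w))
      {i | G i u = G i w}) ∧ (ψ u ≠ ψ w →
        c (ψ u) (ψ w) = Sum.inr (Φ fun i => (c (G i u) (G i w), G i u < G i w)) ∧
        (ψ u < ψ w ↔ Ω fun i => (c (G i u) (G i w), G i u < G i w)))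

/-! ### Fibres -/

/-- the symbols of the structure of fibres: a relation (or the full relation of arity `M`), a map of
its places onto `k` places and the types of these places -/
abbrev SF (S : Type) (σ : Sig) (M : ℕ) : Type :=
  Σ (l : Option (Fin σ.m)) (k : Fin (arP σ M l + 1)), (Fin (arP σ M l) → Fin k) × (Fin k → S)

/-- the signature of the fibres -/
noncomputable def sigF (S : Type) [Finite S] (σ : Sig) (M : ℕ) : Sig :=
  ⟨Nat.card (SF S σ M), fun i => (((Finite.equivFin (SF S σ M)).symm i).2.1 : ℕ)⟩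

/-- the fibres: the injective tuples in the relations of `𝔸` (and in the full relation of arity `M`)
with given types of elements, with identification of places -/
noncomputable def fib [Finite S] (𝔸 : Str σ V) (M : ℕ) (c : V → V → S ⊕ X) :
    Str (sigF S σ M) V :=
  fun i y => Injective y ∧
    (∀ a, c (y a) (y a) = Sum.inl (((Finite.equivFin (SF S σ M)).symm i).2.2.2 a)) ∧
    relP 𝔸 M ((Finite.equivFin (SF S σ M)).symm i).1
      (fun a => y (((Finite.equivFin (SF S σ M)).symm i).2.2.1 a))

/-- the colouring with values in `X`, where the diagonal has the free colour -/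
def cD (P : Pal S X) (c : V → V → S ⊕ X) (x y : V) : X := Sum.elim (fun s => P.fr s s) id (c x y)

/-- `f` is cyclic, and injective maps with the same types have injective combinations of these types
with the colours given by `f` for the ascending pairs, for each order of the arguments. -/
def Dd (𝔸 : Str σ V) (c : V → V → S ⊕ X) (p : ℕ) (f : (ZMod p → X) → X) : Prop :=
  (∀ q : ZMod p → X, f (fun i => q (i + 1)) = f q) ∧
  ∀ (W : Type) [Finite W] (rk : W → ℕ), Injective rk → ∀ (G : ZMod p → W → V),
    (∀ i, Injective (G i)) → (∀ i w, c (G i w) (G i w) = c (G 0 w) (G 0 w)) →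
    ∃ ψ : W → V, Injective ψ ∧ Cx 𝔸 G ψ ∧ (∀ w, c (ψ w) (ψ w) = c (G 0 w) (G 0 w)) ∧
      ∀ (u w : W) (q : ZMod p → X), rk u < rk w →
        (∀ i, c (G i u) (G i w) = Sum.inr (q i)) → c (ψ u) (ψ w) = Sum.inr (f q)

/-! ### The template -/

/-- The elements of the template: the type of an element (equality), or a pair of colours (for
ascending and for descending pairs) and a sign. -/
abbrev Ec (S X : Type) : Type := S ⊕ ((X × X) × Bool)

/-- `q` is the pattern of a family of tuples in the relation `s` of `𝔸` (or of arbitrary tuples of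
length `M`), see `Pool.Agent.H57.EQD.FamP`. -/
def FamP (𝔸 : Str σ V) (M : ℕ) (c : V → V → S ⊕ X) (s : Option (Fin σ.m))
    (q : Fin (arP σ M s) × Fin (arP σ M s) → Ec S X) : Prop :=
  ∃ (k : Fin (arP σ M s) → ℕ) (T : ℕ → ℕ → Bool), Tour T ∧
    (∀ a b, (∃ t, q (a, b) = Sum.inl t) ↔ k a = k b) ∧
    (∀ a b t, q (a, b) = Sum.inr t → t.2 = T (k a) (k b)) ∧
    ∀ rk : Fin (arP σ M s) → ℕ, (∀ a b, rk a = rk b ↔ k a = k b) →
      ∃ x : Fin (arP σ M s) → V, relP 𝔸 M s x ∧ (∀ a b, x a = x b ↔ k a = k b) ∧
        (∀ a b t, q (a, b) = Sum.inl t → c (x a) (x b) = Sum.inl t) ∧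
        ∀ a b t, q (a, b) = Sum.inr t →
          c (x a) (x b) = Sum.inr (if rk a < rk b then t.1.1 else t.1.2)

/-- The finite template. -/
noncomputable def tpl (𝔸 : Str σ V) (M : ℕ) (c : V → V → S ⊕ X) :
    Str (sigOf (Option (Fin σ.m)) (fun s => Fin (arP σ M s) × Fin (arP σ M s))) (Ec S X) :=
  strOn (FamP 𝔸 M c)

/-- the shape of an element of the template: its types, and whether it is an equality -/
def shp (P : Pal S X) : Ec S X → (S × S) × Bool
  | Sum.inl s => ((s, s), true)
  | Sum.inr t => ((P.ls t.1.1, P.rs t.1.1), false)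

end defs

end Pool.Agent.H57.SO
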