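import Pool.Agent.H57.SO.Defs
import Pool.Agent.H57.EQ.Targets

/-!
# Several orbits of vertices: targets of part B
-/

set_option autoImplicit false

namespace Pool.Agent.H57.SO

open Pool.Agent.H68.BP Pool.Agent.H58.SF Pool.Agent.H53.GC
open Pool.Agent.H57.EQ (Cx Tour)
open Function

/-! ### Universality -/

/-- systems of points with copied colours -/
def T_SYS : Prop :=
  ∀ (σ : Sig) (V S X : Type) [LinearOrder V] (P : Pal S X) (𝔸 : Str σ V) (M : ℕ)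
    (c : V → V → S ⊕ X), Stp P 𝔸 M c → ∀ (W : Type) [LinearOrder W] [Finite W] (u : W → V)
      (r : W → W → Prop), (∀ n n', r n n' → r n' n) → ∃ e : W → V, StrictMono e ∧
        (∀ n, c (e n) (e n) = c (u n) (u n)) ∧ ∀ n n', n ≠ n' →
        (r n n' → u n ≠ u n' → c (e n) (e n') = c (u n) (u n')) ∧
        (¬ (r n n' ∧ u n ≠ u n') →
          c (e n) (e n') = Sum.inr (P.fr (vt P c (u n)) (vt P c (u n'))))

/-- realization, with any order -/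
def T_REA : Prop :=
  ∀ (σ : Sig) (V S X : Type) [LinearOrder V] (P : Pal S X) (𝔸 : Str σ V) (M : ℕ)
    (c : V → V → S ⊕ X), Stp P 𝔸 M c → ∀ (W : Type) [Finite W] (q : W → W → S ⊕ X),
      (∀ s : Fin M → W, ∃ v : Fin M → V, ∀ a b, c (v a) (v b) = q (s a) (s b)) →
      ∀ rk : W → ℕ, (∀ u w, rk u = rk w ↔ ∃ s, q u w = Sum.inl s) →
      ∃ ψ : W → V, ∀ u w, c (ψ u) (ψ w) = q u w ∧ (ψ u < ψ w ↔ rk u < rk w)

/-! ### The fibres -/

/-- The structure of the fibres is a structure of the kind of the table GC. -/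
def T_CPS : Prop :=
  ∀ (σ : Sig) (V S X : Type) [LinearOrder V] [Finite S] (P : Pal S X) (𝔸 : Str σ V) (M : ℕ)
    (c : V → V → S ⊕ X), Stp P 𝔸 M c →
      Setup (fib 𝔸 M c) M (cD P c) (fun a b => P.fr (P.ls a) (P.ls b))
        (fun t => P.fr (P.ls t) (P.ls t)) (fun t => P.fr (P.rs t) (P.rs t))

/-- `h'` is given by `h` on blocks. -/
def Blk {V S X : Type} (P : Pal S X) (c : V → V → S ⊕ X)
    (h h' : (Fin 6 → V) → (Fin 6 → V) → S ⊕ X) : Prop :=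
  Exa h' ∧ ∀ F : Finset (Fin 6 → V), ∃ e : (Fin 6 → V) → Fin 6 → V,
    (∀ v ∈ F, ∀ w ∈ F, v ≠ w → ∀ l l', e v l ≠ e w l') ∧
    (∀ v ∈ F, ∀ w ∈ F, ∀ l, v l ≠ w l → c (e v l) (e w l) = c (v l) (w l)) ∧
    (∀ v ∈ F, ∀ l, c (e v l) (e v l) = c (v l) (v l)) ∧
    (∀ v ∈ F, ∀ l l', e v l ≠ e v l' →
      c (e v l) (e v l') = Sum.inr (P.fr (vt P c (v l)) (vt P c (v l')))) ∧
    ∀ v ∈ F, ∀ w ∈ F, h' v w = h (e v) (e w)

/-- systems of blocks -/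
def T_BKS : Prop :=
  ∀ (σ : Sig) (V S X : Type) [LinearOrder V] (P : Pal S X) (𝔸 : Str σ V) (M : ℕ)
    (c : V → V → S ⊕ X), Stp P 𝔸 M c → ∀ h, Core P 𝔸 c h → ∃ h', Blk P c h h'

/-- the map on pairs for the structure of the fibres -/
def T_BKG : Prop :=
  ∀ (σ : Sig) (V S X : Type) [LinearOrder V] [Finite S] (P : Pal S X) (𝔸 : Str σ V) (M : ℕ)
    (c : V → V → S ⊕ X), Stp P 𝔸 M c → ∀ h h', Core P 𝔸 c h → Blk P c h h' →
      GoodMap (fib 𝔸 M c) M (cD P c) (fun v w => Sum.elim (fun s => P.fr s s) id (h' v w))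

/-- cyclic functions for the fibres -/
def T_DDX : Prop :=
  ∀ (σ : Sig) (V S X : Type) [LinearOrder V] [Finite S] (P : Pal S X) (𝔸 : Str σ V) (M : ℕ)
    (c : V → V → S ⊕ X), Stp P 𝔸 M c → ∀ (p : ℕ) (H : (ZMod p → X × Bool) → X × Bool),
      IsPoly (template (fib 𝔸 M c) M (cD P c)) (template (fib 𝔸 M c) M (cD P c)) H →
      (∀ x, H (fun i => x (i + 1)) = H x) → Dd 𝔸 c p (fun q => (H (fun i => (q i, false))).1)

/-- for all large primes there are cyclic functions -/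
def DdAll {σ : Sig} {V S X : Type} (𝔸 : Str σ V) (c : V → V → S ⊕ X) : Prop :=
  ∃ N : ℕ, ∀ p : ℕ, p.Prime → N < p → ∃ f, Dd 𝔸 c p f

/-! ### The types of the elements -/

/-- cyclic actions on the types -/
def T_SRT : Prop :=
  ∀ (σ : Sig) (V S X : Type) [LinearOrder V] (P : Pal S X) (𝔸 : Str σ V) (M : ℕ)
    (c : V → V → S ⊕ X), Stp P 𝔸 M c → ∀ h, Core P 𝔸 c h →
      ∃ N : ℕ, ∀ p : ℕ, p.Prime → N < p → ∃ τ : (ZMod p → S) → S, Sbn P 𝔸 c τ ∧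
        ∀ t, τ (fun i => t (i + 1)) = τ t

/-! ### Behaviours -/

/-- the injection -/
def T_INJ2 : Prop :=
  ∀ (σ : Sig) (V S X : Type) [LinearOrder V] (P : Pal S X) (𝔸 : Str σ V) (M : ℕ)
    (c : V → V → S ⊕ X), Stp P 𝔸 M c → ∀ h, Core P 𝔸 c h →
      ∃ (τ : (Fin 2 → S) → S) (κ : (Fin 2 → S) → (Fin 2 → S) → Set (Fin 2) → Prop),
        Bh P 𝔸 c τ κ ∧ (∀ s, τ (fun _ => s) = s) ∧
        ∀ s s' A, κ (fun _ => s) (fun _ => s') A → A = Set.univ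

/-- the kernel of maps with a given action on the types -/
def T_KER : Prop :=
  ∀ (σ : Sig) (V S X : Type) [LinearOrder V] (P : Pal S X) (𝔸 : Str σ V) (M : ℕ)
    (c : V → V → S ⊕ X), Stp P 𝔸 M c → ∀ (I : Type) [Finite I] (τ : (I → S) → S),
      Sbn P 𝔸 c τ → ∃ κ, Bh P 𝔸 c τ κ

/-- canonization of behaviours -/
def T_CAB : Prop :=
  ∀ (σ : Sig) (V S X : Type) [LinearOrder V] (P : Pal S X) (𝔸 : Str σ V) (M : ℕ)
    (c : V → V → S ⊕ X), Stp P 𝔸 M c → ∀ (I : Type) [Finite I] (τ : (I → S) → S)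
      (κ : (I → S) → (I → S) → Set I → Prop), Bh P 𝔸 c τ κ → ∃ Φ Ω, Gm P 𝔸 c τ κ Φ Ω

/-- intersection of kernels -/
def T_BHI : Prop :=
  ∀ (σ : Sig) (V S X : Type) [LinearOrder V] (P : Pal S X) (𝔸 : Str σ V) (M : ℕ)
    (c : V → V → S ⊕ X), Stp P 𝔸 M c →
      (∃ (τ : (Fin 2 → S) → S) (κ : (Fin 2 → S) → (Fin 2 → S) → Set (Fin 2) → Prop),
        Bh P 𝔸 c τ κ ∧ (∀ s, τ (fun _ => s) = s) ∧
        ∀ s s' A, κ (fun _ => s) (fun _ => s') A → A = Set.univ) →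
      ∀ (I : Type) (τ : (I → S) → S) (κ κ' : (I → S) → (I → S) → Set I → Prop),
        Bh P 𝔸 c τ κ → Bh P 𝔸 c τ κ' → Bh P 𝔸 c τ (fun t t' A => κ t t' A ∧ κ' t t' A)

/-- cyclic behaviours -/
def T_CYB : Prop :=
  ∀ (σ : Sig) (V S X : Type) [LinearOrder V] (P : Pal S X) (𝔸 : Str σ V) (M : ℕ)
    (c : V → V → S ⊕ X), Stp P 𝔸 M c →
      (∀ (I : Type) (τ : (I → S) → S) (κ κ' : (I → S) → (I → S) → Set I → Prop),
        Bh P 𝔸 c τ κ → Bh P 𝔸 c τ κ' → Bh P 𝔸 c τ (fun t t' A => κ t t' A ∧ κ' t t' A)) →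
      ∀ (p : ℕ), p.Prime → ∀ (τ : (ZMod p → S) → S)
        (κ : (ZMod p → S) → (ZMod p → S) → Set (ZMod p) → Prop), Bh P 𝔸 c τ κ →
        (∀ t, τ (fun i => t (i + 1)) = τ t) →
        ∃ κ' : (ZMod p → S) → (ZMod p → S) → Set (ZMod p) → Prop, Bh P 𝔸 c τ κ' ∧
          ∀ t t' A, κ' (fun i => t (i + 1)) (fun i => t' (i + 1)) {i | i + 1 ∈ A} ↔ κ' t t' A

/-! ### The template -/

/-- the types of the first elements -/
def zL {S X I : Type} (P : Pal S X) (z : I → Ec S X) (i : I) : S := (shp P (z i)).1.1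

/-- the types of the second elements -/
def zR {S X I : Type} (P : Pal S X) (z : I → Ec S X) (i : I) : S := (shp P (z i)).1.2

/-- the set of the equalities -/
def zA {S X I : Type} (P : Pal S X) (z : I → Ec S X) : Set I := {i | (shp P (z i)).2 = true}

/-- `F` is a polymorphism of the template with the action on types `τ` and the equalities `κ`. -/
structure Tp {σ : Sig} {V S X I : Type} (P : Pal S X) (𝔸 : Str σ V) (M : ℕ)
    (c : V → V → S ⊕ X) (τ : (I → S) → S) (κ : (I → S) → (I → S) → Set I → Prop)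
    (F : (I → Ec S X) → Ec S X) : Prop where
  poly : IsPoly (tpl 𝔸 M c) (tpl 𝔸 M c) F
  eq : ∀ z, (∃ s, F z = Sum.inl s) ↔ κ (zL P z) (zR P z) (zA P z)
  ty : ∀ z s, F z = Sum.inl s → s = τ (zL P z)

/-- from maps depending on linear orders to polymorphisms of the template -/
def T_TOF : Prop :=
  ∀ (σ : Sig) (V S X : Type) [LinearOrder V] (P : Pal S X) (𝔸 : Str σ V) (M : ℕ)
    (c : V → V → S ⊕ X), Stp P 𝔸 M c → DdAll 𝔸 c → ∀ (I : Type) [Finite I]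
      (τ : (I → S) → S) (κ : (I → S) → (I → S) → Set I → Prop) (Φ : (I → (S ⊕ X) × Prop) → X)
      (Ω : (I → (S ⊕ X) × Prop) → Prop), Gm P 𝔸 c τ κ Φ Ω → ∃ F, Tp P 𝔸 M c τ κ F

/-- the cyclic polymorphism of the template -/
def T_CYP : Prop :=
  ∀ (σ : Sig) (V S X : Type) [LinearOrder V] (P : Pal S X) (𝔸 : Str σ V) (M : ℕ)
    (c : V → V → S ⊕ X), Stp P 𝔸 M c → ∀ (p : ℕ) (f : (ZMod p → X) → X), p.Prime → 2 < p →
      Dd 𝔸 c p f → ∀ (τ : (ZMod p → S) → S)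
        (κ : (ZMod p → S) → (ZMod p → S) → Set (ZMod p) → Prop) (F : (ZMod p → Ec S X) → Ec S X),
        Tp P 𝔸 M c τ κ F → (∀ t, τ (fun i => t (i + 1)) = τ t) →
        (∀ t t' A, κ (fun i => t (i + 1)) (fun i => t' (i + 1)) {i | i + 1 ∈ A} ↔ κ t t' A) →
        ∃ u : (ZMod p → Ec S X) → Ec S X, IsPoly (tpl 𝔸 M c) (tpl 𝔸 M c) u ∧
          ∀ z, u (fun i => z (i + 1)) = u z

/-! ### The reduction (helper50) -/

/-- correctness of the reduction -/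
def T_RE1 : Prop :=
  ∀ (σ : Sig) (V S X : Type) [LinearOrder V] (P : Pal S X) (𝔸 : Str σ V) (M : ℕ)
    (c : V → V → S ⊕ X), Stp P 𝔸 M c → ∀ (n : ℕ) (𝕏 : Str σ (Fin n)), (∃ f, IsHom 𝕏 𝔸 f) ↔
      ∃ q : Fin n → Fin n → Ec S X,
        ∀ (s : Option (Fin σ.m)) (y : Fin (arP σ M s) → Fin n), relP 𝕏 M s y →
          FamP 𝔸 M c s (fun e => q (y e.1) (y e.2))

/-- the reduction -/
def T_RED : Prop :=
  ∀ (σ : Sig) (V S X : Type) [LinearOrder V] (P : Pal S X) (𝔸 : Str σ V) (M : ℕ)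
    (c : V → V → S ⊕ X), Stp P 𝔸 M c →
      N793a5b8e.ManyOneReducible (CSP 𝔸) (CSP (tpl 𝔸 M c))

/-! ### Part A -/

/-- the restriction to a core (helper58) -/
def T_PA : Prop :=
  ∀ (σ : Sig) (V S X : Type) [LinearOrder V] (P : Pal S X) (𝔸 : Str σ V) (M : ℕ)
    (c : V → V → S ⊕ X), Stp P 𝔸 M c → Oligo 𝔸 → ¬ PPConstructsK3 𝔸 →
      ∃ (V' S' X' : Type) (_ : LinearOrder V') (P' : Pal S' X') (𝔸' : Str σ V') (M' : ℕ)
        (c' : V' → V' → S' ⊕ X') (h' : (Fin 6 → V') → (Fin 6 → V') → S' ⊕ X'),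
        Stp P' 𝔸' M' c' ∧ Core P' 𝔸' c' h' ∧
          ∀ (n : ℕ) (𝕏 : Str σ (Fin n)), (∃ f, IsHom 𝕏 𝔸' f) ↔ ∃ f, IsHom 𝕏 𝔸 f

end Pool.Agent.H57.SO
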